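import Pool.Agent.Work.MP_11a08a_al.Cp.Defs

/-!
Ultraproducts, the exponential map, integer bases, and the Markov step.
-/

set_option autoImplicit false

open Finset Filter

namespace Pool.Agent.Work.MP_11a08a_al.Cp

/-- The sequences that vanish almost everywhere. -/
def ultI (𝒰 : Ultrafilter ℕ) (F : ℕ → Type) [∀ n, Field (F n)] : Ideal (∀ n, F n) where
  carrier := {x | ∀ᶠ n in (𝒰 : Filter ℕ), x n = 0}
  add_mem' := fun {a b} ha hb => by
    filter_upwards [ha, hb] with n h1 h2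
    rw [Pi.add_apply, h1, h2, add_zero]
  zero_mem' := Eventually.of_forall fun _ => rfl
  smul_mem' := fun c x hx => by
    filter_upwards [hx] with n h1
    rw [smul_eq_mul, Pi.mul_apply, h1, mul_zero]

theorem ult_exists (𝒰 : Ultrafilter ℕ) (F : ℕ → Type) [∀ n, Field (F n)] :
    ∃ (L : Type) (_ : Field L) (π : (∀ n, F n) →+* L), Function.Surjective π ∧
      ∀ x, π x = 0 ↔ ∀ᶠ n in (𝒰 : Filter ℕ), x n = 0 := by
  have hm : (ultI 𝒰 F).IsMaximal := by
    rw [Ideal.isMaximal_iff]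
    refine ⟨fun h => ?_, fun J x hJ hx hxJ => ?_⟩
    · have h' : ∀ᶠ n in (𝒰 : Filter ℕ), (1 : ∀ n, F n) n = 0 := h
      obtain ⟨n, hn⟩ := h'.exists
      exact one_ne_zero hn
    · have h1 : ∀ᶠ n in (𝒰 : Filter ℕ), ¬ x n = 0 := Ultrafilter.eventually_not.2 hx
      have h2 : (1 - (fun n => (x n)⁻¹) * x) ∈ ultI 𝒰 F := by
        show ∀ᶠ n in (𝒰 : Filter ℕ), _
        filter_upwards [h1] with n hn
        simp [inv_mul_cancel₀ hn]
      have := J.add_mem (hJ h2) (J.mul_mem_left (fun n => (x n)⁻¹) hxJ)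
      rwa [sub_add_cancel] at this
  exact ⟨_, Ideal.Quotient.field (ultI 𝒰 F), Ideal.Quotient.mk _, Ideal.Quotient.mk_surjective,
    fun x => Ideal.Quotient.eq_zero_iff_mem⟩

theorem ult_pow_add {K : Type} [Field K] {r : ℕ} [Fact r.Prime] {γ : K}
    (hγ : IsPrimitiveRoot γ r) (x y : ZMod r) : γ ^ (x + y).val = γ ^ x.val * γ ^ y.val := by
  rw [ZMod.val_add, ← pow_add]
  conv_rhs => rw [← Nat.mod_add_div (x.val + y.val) r, pow_add, pow_mul, hγ.pow_eq_one, one_pow,
    mul_one]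

theorem ult_pow_sum {K ι : Type} [Field K] {r : ℕ} [Fact r.Prime] {γ : K}
    (hγ : IsPrimitiveRoot γ r) (T : Finset ι) (x : ι → ZMod r) :
    γ ^ (∑ i ∈ T, x i).val = ∏ i ∈ T, γ ^ (x i).val := by
  classical
  induction T using Finset.induction_on with
  | empty => simp
  | insert a s ha ih => rw [sum_insert ha, prod_insert ha, ult_pow_add hγ, ih]

theorem ult_pow_nat {K : Type} [Field K] {r : ℕ} [Fact r.Prime] {γ : K}
    (hγ : IsPrimitiveRoot γ r) (m : ℕ) (x : ZMod r) :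
    γ ^ ((m : ZMod r) * x).val = (γ ^ x.val) ^ m := by
  induction m with
  | zero => simp
  | succ m ih => rw [Nat.cast_succ, add_mul, one_mul, ult_pow_add hγ, ih, pow_succ]

/-- No integer relation holds almost everywhere. -/
def Ind (𝒰 : Ultrafilter ℕ) {r : ℕ → ℕ} {I : Type} [Fintype I] (v : I → ∀ n, ZMod (r n)) : Prop :=
  ∀ l : I → ℤ, l ≠ 0 → ∀ᶠ n in (𝒰 : Filter ℕ), ∑ x, (l x : ZMod (r n)) * v x n ≠ 0

theorem ult_basis (𝒰 : Ultrafilter ℕ) (r : ℕ → ℕ) [∀ n, Fact (r n).Prime]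
    (hr : Tendsto r 𝒰 atTop) {q : ℕ} (a : Fin q → ∀ n, ZMod (r n)) :
    ∃ (g : ℕ) (b : Fin g → ∀ n, ZMod (r n)) (d : Fin q → Fin g → ℤ), g ≤ q ∧ Ind 𝒰 b ∧
      ∀ l, ∀ᶠ n in (𝒰 : Filter ℕ), a l n = ∑ j, (d l j : ZMod (r n)) * b j n := by
  obtain ⟨L, _, π, hs, h0⟩ := ult_exists 𝒰 fun n => ZMod (r n)
  have hc : CharZero L := by
    refine charZero_of_inj_zero fun m hm => ?_
    by_contra hm0
    rw [← map_natCast π, h0] at hm
    obtain ⟨n, h1, h2⟩ := (hm.and (hr.eventually_gt_atTop m)).exists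
    rw [Pi.natCast_apply, ZMod.natCast_eq_zero_iff] at h1
    exact absurd (Nat.le_of_dvd (Nat.pos_of_ne_zero hm0) h1) (by omega)
  let W : Submodule ℤ L := Submodule.span ℤ (Set.range fun l => π (a l))
  have hf : Module.Finite ℤ W := Module.Finite.span_of_finite ℤ (Set.finite_range _)
  let B := Module.finBasis ℤ W
  have hg : Module.finrank ℤ W ≤ q := by
    have := finrank_range_le_card (R := ℤ) fun l => π (a l)
    simpa [Set.finrank] using this
  choose b hb using fun j => hs (B j : L)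
  have key : ∀ l : Fin (Module.finrank ℤ W) → ℤ,
      π (fun n => ∑ j, (l j : ZMod (r n)) * b j n) = ((∑ j, l j • B j : W) : L) := by
    intro l
    have : (fun n => ∑ j, (l j : ZMod (r n)) * b j n) = ∑ j, l j • b j := by
      funext n
      simp [Finset.sum_apply]
    rw [this, map_sum, Submodule.coe_sum]
    exact sum_congr rfl fun j _ => by rw [map_zsmul, hb, Submodule.coe_smul]
  refine ⟨_, b, fun l j => B.repr ⟨π (a l), Submodule.subset_span ⟨l, rfl⟩⟩ j, hg, fun l hl => ?_,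
    fun l => ?_⟩
  · refine Ultrafilter.eventually_not.2 fun h => hl ?_
    rw [← h0, key, Submodule.coe_eq_zero] at h
    exact funext (Fintype.linearIndependent_iff.1 B.linearIndependent l h)
  · have h1 := key fun j => B.repr ⟨π (a l), Submodule.subset_span ⟨l, rfl⟩⟩ j
    rw [B.sum_repr] at h1
    have h2 := (h0 _).1 ((map_sub π _ _).trans (sub_eq_zero.2 h1.symm))
    filter_upwards [h2] with n hn
    exact sub_eq_zero.1 hn

theorem ult_markov {r : ℕ} [Fact r.Prime] {U : Finset (ZMod r)} (hU : Grp U) {k : ℕ}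
    (h : ∀ Z : Finset (ZMod r),
      (#((sol U k).filter fun w => half w ∈ Z) : ℝ) * r ≤ 4 * #Z * #(sol U k))
    (Z : Finset (ZMod r)) {ε M : ℝ} (hM : 0 < M) (hZ : (#Z : ℝ) ≤ ε * r) :
    (#((sol U k).filter fun w => (#U : ℝ) < M * #(U.filter fun u => half w * u ∈ Z)) : ℝ) ≤
      4 * M * ε * #(sol U k) := by
  classical
  have hr : (0 : ℝ) < r := by exact_mod_cast (Fact.out : r.Prime).pos
  have hn : (0 : ℝ) < #U := by exact_mod_cast card_pos.2 ⟨1, hU.one⟩
  have h1 : ∀ u ∈ U, (#((sol U k).filter fun w => half w * u ∈ Z) : ℝ) ≤ 4 * ε * #(sol U k) := by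
    intro u hu
    have h2 := h (univ.filter fun z => z * u ∈ Z)
    have h3 : #(univ.filter fun z => z * u ∈ Z) ≤ #Z :=
      card_le_card_of_injOn (fun z => z * u) (fun z hz => (mem_filter.1 hz).2)
        fun z _ z' _ e => mul_right_cancel₀ (hU.ne u hu) e
    have h4 : (#(univ.filter fun z => z * u ∈ Z) : ℝ) ≤ ε * r := (Nat.cast_le.2 h3).trans hZ
    simp only [mem_filter, mem_univ, true_and] at h2
    refine le_of_mul_le_mul_right (h2.trans ?_) hr
    calc 4 * (#(univ.filter fun z => z * u ∈ Z) : ℝ) * #(sol U k)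
        ≤ 4 * (ε * r) * #(sol U k) := by gcongr
      _ = _ := by ring
  have h5 : ∑ w ∈ sol U k, (#(U.filter fun u => half w * u ∈ Z) : ℝ) ≤
      #U * (4 * ε * #(sol U k)) := by
    have e : ∑ w ∈ sol U k, (#(U.filter fun u => half w * u ∈ Z) : ℝ) =
        ∑ u ∈ U, (#((sol U k).filter fun w => half w * u ∈ Z) : ℝ) := by
      simp only [card_filter, Nat.cast_sum]
      exact sum_comm
    rw [e]
    exact (sum_le_card_nsmul _ _ _ h1).trans_eq (nsmul_eq_mul _ _)
  set S := (sol U k).filter fun w => (#U : ℝ) < M * #(U.filter fun u => half w * u ∈ Z)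
  have h6 : (#S : ℝ) * #U ≤ M * ∑ w ∈ sol U k, (#(U.filter fun u => half w * u ∈ Z) : ℝ) := by
    rw [mul_sum, ← nsmul_eq_mul]
    refine (card_nsmul_le_sum _ _ _ fun w hw => (mem_filter.1 hw).2.le).trans ?_
    exact sum_le_sum_of_subset_of_nonneg (filter_subset _ _) fun _ _ _ => by positivity
  refine le_of_mul_le_mul_right (h6.trans ?_) hn
  calc M * ∑ w ∈ sol U k, (#(U.filter fun u => half w * u ∈ Z) : ℝ)
      ≤ M * (#U * (4 * ε * #(sol U k))) := by gcongr
    _ = _ := by ring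

end Pool.Agent.Work.MP_11a08a_al.Cp
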