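import Pool.Agent.Work.MP_11a08a_al.Cp.Defs

/-!
The rank inequalities.
-/

set_option autoImplicit false

namespace Pool.Agent.Work.MP_11a08a_al.Cp

theorem alg_sub {α ι : Type} (M : Matroid α) (s : ι → Set α) (T : Finset ι) :
    M.eRk (⋃ i ∈ T, s i) ≤ ∑ i ∈ T, M.eRk (s i) := by
  classical
  induction T using Finset.induction_on with
  | empty => simp
  | insert a T ha ih =>
    rw [Finset.set_biUnion_insert, Finset.sum_insert ha]
    exact (M.eRk_union_le_eRk_add_eRk _ _).trans (add_le_add le_rfl ih)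

theorem alg_half {α : Type} (M : Matroid α) {k : ℕ} (s : Fin k → Set α) (m n : ℕ)
    (h : ∀ i, M.eRk (s i) + m ≤ n) : M.eRk (⋃ i, s i) + (k * m : ℕ) ≤ (k * n : ℕ) := by
  have h1 := alg_sub M s Finset.univ
  simp only [Finset.mem_univ, Set.iUnion_true] at h1
  have h2 : ∑ i : Fin k, (M.eRk (s i) + m) ≤ ∑ _i : Fin k, (n : ℕ∞) :=
    Finset.sum_le_sum fun i _ => h i
  rw [Finset.sum_add_distrib] at h2
  simp only [Finset.sum_const, Finset.card_univ, Fintype.card_fin, nsmul_eq_mul] at h2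
  push_cast
  exact (add_le_add h1 le_rfl).trans h2

theorem alg_encard {K J : Type} [Fintype J] {x : J → K} (hx : Function.Injective x) :
    (Set.range x).encard = Fintype.card J := by
  rw [← Set.image_univ, hx.encard_image]
  simp

theorem alg_mem {R K : Type} [Field R] [Field K] [Algebra R K] {k : ℕ} (s : Set K) (z : Fin k → K)
    (h : ∀ i, z i ∈ s) : ∏ i, z i ∈ (AlgebraicIndependent.matroid R K).closure s := by
  rw [AlgebraicIndependent.matroid_closure_eq]
  have h1 : ∏ i, z i ∈ Algebra.adjoin R s :=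
    Subalgebra.prod_mem _ fun i _ => Algebra.subset_adjoin (h i)
  exact (Subalgebra.algebraicClosure (Algebra.adjoin R s) K).algebraMap_mem ⟨_, h1⟩

theorem alg : StmtAlg := by
  intro R K _ _ _
  set M := AlgebraicIndependent.matroid R K with hM
  refine ⟨fun s t h => M.eRk_mono h, fun J _ x hx => ?_, fun k m I _ x y hk hy h1 h2 h3 => ?_⟩
  · change M.eRk (Set.range x) + 1 ≤ Fintype.card J
    have hfin : (Set.range x).Finite := Set.finite_range x
    have hle : (Set.range x).encard ≤ Fintype.card J := by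
      have := Set.encard_image_le x Set.univ
      simpa using this
    refine Order.add_one_le_of_lt (lt_of_le_of_ne ((M.eRk_le_encard _).trans hle) fun e => hx ?_)
    have e1 : M.eRk (Set.range x) = (Set.range x).encard :=
      le_antisymm (M.eRk_le_encard _) (e ▸ hle)
    have hind : M.Indep (Set.range x) := (Matroid.indep_iff_eRk_eq_encard_of_finite hfin).2 e1
    have hinj : Function.Injective x := by
      have e2 : (x '' Set.univ).encard = (Set.univ : Set J).encard := by
        rw [Set.image_univ, ← e1, e]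
        simp
      exact Set.injOn_univ.1 (Set.finite_univ.injOn_of_encard_image_eq e2)
    exact (algebraicIndependent_subtype_range hinj).1 hind
  · change M.eRk (⋃ i, Set.range (x i)) + (2 * k * m : ℕ) ≤ ((2 * k - 1) * Fintype.card I : ℕ)
    set S₁ : Set K := ⋃ i, Set.range (x (Sum.inl i)) with hS₁
    set S₂ : Set K := ⋃ i, Set.range (x (Sum.inr i)) with hS₂
    have hU : (⋃ i, Set.range (x i)) = S₁ ∪ S₂ := Set.iUnion_sum
    have a1 : M.eRk S₁ + (k * m : ℕ) ≤ (k * Fintype.card I : ℕ) :=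
      alg_half M _ m _ fun i => h3 _
    have a2 : M.eRk S₂ + (k * m : ℕ) ≤ (k * Fintype.card I : ℕ) :=
      alg_half M _ m _ fun i => h3 _
    have hind : M.Indep (Set.range y) := (algebraicIndependent_subtype_range hy.injective).2 hy
    have hsub : Set.range y ⊆ M.closure S₁ ∩ M.closure S₂ := by
      rintro _ ⟨j, rfl⟩
      constructor
      · rw [h1 j]
        exact alg_mem _ _ fun i => Set.mem_iUnion.2 ⟨i, j, rfl⟩
      · rw [h2 j]
        exact alg_mem _ _ fun i => Set.mem_iUnion.2 ⟨i, j, rfl⟩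
    have a3 : (Fintype.card I : ℕ∞) ≤ M.eRk (M.closure S₁ ∩ M.closure S₂) := by
      rw [← alg_encard hy.injective]
      exact hind.encard_le_eRk_of_subset hsub
    have a4 := M.eRk_inter_add_eRk_union_le (M.closure S₁) (M.closure S₂)
    rw [Matroid.eRk_union_closure_left_eq, Matroid.eRk_union_closure_right_eq,
      Matroid.eRk_closure_eq, Matroid.eRk_closure_eq] at a4
    have a5 : (Fintype.card I : ℕ∞) + M.eRk (S₁ ∪ S₂) ≤ M.eRk S₁ + M.eRk S₂ :=
      (add_le_add a3 le_rfl).trans a4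
    rw [hU]
    have f1 : M.eRk S₁ ≠ ⊤ := ne_top_of_le_ne_top (ENat.natCast_ne_top _) (le_self_add.trans a1)
    have f2 : M.eRk S₂ ≠ ⊤ := ne_top_of_le_ne_top (ENat.natCast_ne_top _) (le_self_add.trans a2)
    have f3 : M.eRk (S₁ ∪ S₂) ≠ ⊤ :=
      ne_top_of_le_ne_top (WithTop.add_ne_top.2 ⟨f1, f2⟩) (M.eRk_union_le_eRk_add_eRk _ _)
    obtain ⟨r₁, e₁⟩ := ENat.ne_top_iff_exists.1 f1
    obtain ⟨r₂, e₂⟩ := ENat.ne_top_iff_exists.1 f2
    obtain ⟨r₃, e₃⟩ := ENat.ne_top_iff_exists.1 f3
    rw [← e₁] at a1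
    rw [← e₂] at a2
    rw [← e₁, ← e₂, ← e₃] at a5
    rw [← e₃]
    norm_cast at a1 a2 a5 ⊢
    obtain ⟨k', rfl⟩ : ∃ k', k = k' + 1 := ⟨k - 1, by omega⟩
    have e4 : 2 * (k' + 1) - 1 = 2 * k' + 1 := by omega
    rw [e4]
    nlinarith

end Pool.Agent.Work.MP_11a08a_al.Cp
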