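import Pool.Agent.Work.MP_11a08a_al.Cp.Defs

/-!
The Balog-Szemeredi-Gowers lemma in graph form.
-/

set_option autoImplicit false

open Finset
open scoped Pointwise

namespace Pool.Agent.Work.MP_11a08a_al.Cp

section
variable {G : Type} [AddCommGroup G] [DecidableEq G]

/-- The neighbours of `b`. -/
def bsg_N (A S : Finset G) (b : G) : Finset G := A.filter fun a => a - b ∈ S

/-- The common neighbours of `a` and `x`. -/
def bsg_C (A S : Finset G) (a x : G) : Finset G := A.filter fun b => a - b ∈ S ∧ x - b ∈ S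

lemma bsg_sum_N (A S : Finset G) :
    ∑ b ∈ A, (#(bsg_N A S b) : ℝ) = #((A ×ˢ A).filter fun p => p.1 - p.2 ∈ S) := by
  simp only [bsg_N, card_filter, Nat.cast_sum, sum_product]
  exact sum_comm

lemma bsg_sum_bad (A S : Finset G) (t : ℝ) (ht : 0 ≤ t) :
    ∑ b ∈ A, (#((bsg_N A S b ×ˢ bsg_N A S b).filter
      fun p => (#(bsg_C A S p.1 p.2) : ℝ) < t) : ℝ) ≤ t * (#A : ℝ) ^ 2 := by
  have h : ∀ b, (#((bsg_N A S b ×ˢ bsg_N A S b).filter
      fun p => (#(bsg_C A S p.1 p.2) : ℝ) < t) : ℝ) =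
      ∑ p ∈ (A ×ˢ A).filter (fun p => (#(bsg_C A S p.1 p.2) : ℝ) < t),
        if (p.1 - b ∈ S ∧ p.2 - b ∈ S) then (1 : ℝ) else 0 := by
    intro b
    rw [sum_boole]
    congr 2
    ext p
    simp only [bsg_N, mem_filter, mem_product]
    tauto
  simp_rw [h]
  rw [sum_comm]
  calc _ ≤ ∑ _p ∈ (A ×ˢ A).filter (fun p => (#(bsg_C A S p.1 p.2) : ℝ) < t), t := by
        refine sum_le_sum fun p hp => ?_
        rw [sum_boole]
        exact (mem_filter.1 hp).2.le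
    _ ≤ ∑ _p ∈ A ×ˢ A, t :=
        sum_le_sum_of_subset_of_nonneg (filter_subset _ _) fun _ _ _ => ht
    _ = t * (#A : ℝ) ^ 2 := by
        rw [sum_const, card_product, nsmul_eq_mul]; push_cast; ring

lemma bsg_exists (A S : Finset G) (θ : ℝ) (hA : A.Nonempty) (hθ : 0 < θ)
    (h : θ * (#A : ℝ) ^ 2 ≤ #((A ×ˢ A).filter fun p => p.1 - p.2 ∈ S)) :
    ∃ b ∈ A, θ ^ 2 * (#A : ℝ) ^ 2 / 2 ≤ (#(bsg_N A S b) : ℝ) ^ 2 -
      16 * #((bsg_N A S b ×ˢ bsg_N A S b).filter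
        fun p => (#(bsg_C A S p.1 p.2) : ℝ) < θ ^ 2 / 32 * #A) := by
  have hn : (0 : ℝ) < #A := by exact_mod_cast hA.card_pos
  refine exists_le_of_sum_le hA ?_
  rw [sum_sub_distrib, ← mul_sum, sum_const, nsmul_eq_mul]
  have h1 := bsg_sum_bad A S (θ ^ 2 / 32 * #A) (by positivity)
  have h2 : (∑ b ∈ A, (#(bsg_N A S b) : ℝ)) ^ 2 ≤ #A * ∑ b ∈ A, (#(bsg_N A S b) : ℝ) ^ 2 :=
    sq_sum_le_card_mul_sum_sq
  rw [bsg_sum_N] at h2
  have h3 : (θ * (#A : ℝ) ^ 2) ^ 2 ≤ #A * ∑ b ∈ A, (#(bsg_N A S b) : ℝ) ^ 2 :=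
    (pow_le_pow_left₀ (by positivity) h 2).trans h2
  have h4 : θ ^ 2 * (#A : ℝ) ^ 3 ≤ ∑ b ∈ A, (#(bsg_N A S b) : ℝ) ^ 2 := by
    refine le_of_mul_le_mul_left ?_ hn
    calc (#A : ℝ) * (θ ^ 2 * (#A : ℝ) ^ 3) = (θ * (#A : ℝ) ^ 2) ^ 2 := by ring
      _ ≤ _ := h3
  have e1 : (#A : ℝ) * (θ ^ 2 * (#A : ℝ) ^ 2 / 2) = θ ^ 2 * (#A : ℝ) ^ 3 / 2 := by ring
  have e2 : θ ^ 2 / 32 * (#A : ℝ) * (#A : ℝ) ^ 2 = θ ^ 2 * (#A : ℝ) ^ 3 / 32 := by ring
  rw [e1]
  rw [e2] at h1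
  linarith

omit [AddCommGroup G] [DecidableEq G] in
lemma bsg_markov (X : Finset G) (B : G → G → Prop) [∀ a x, Decidable (B a x)]
    (hX : (0 : ℝ) < #X)
    (h : 16 * (#((X ×ˢ X).filter fun p => B p.1 p.2) : ℝ) ≤ (#X : ℝ) ^ 2) :
    3 / 4 * (#X : ℝ) ≤ #(X.filter fun a => (#(X.filter fun x => B a x) : ℝ) ≤ #X / 4) := by
  have h1 : (#((X ×ˢ X).filter fun p => B p.1 p.2) : ℝ) =
      ∑ a ∈ X, (#(X.filter fun x => B a x) : ℝ) := by
    simp only [card_filter, Nat.cast_sum, sum_product]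
  have h2 : (#(X.filter fun a => ¬ (#(X.filter fun x => B a x) : ℝ) ≤ #X / 4) : ℝ) * (#X / 4) ≤
      ∑ a ∈ X, (#(X.filter fun x => B a x) : ℝ) := by
    calc _ = ∑ _a ∈ X.filter (fun a => ¬ (#(X.filter fun x => B a x) : ℝ) ≤ #X / 4),
          ((#X : ℝ) / 4) := by rw [sum_const, nsmul_eq_mul]
      _ ≤ ∑ a ∈ X.filter (fun a => ¬ (#(X.filter fun x => B a x) : ℝ) ≤ #X / 4),
          (#(X.filter fun x => B a x) : ℝ) :=
          sum_le_sum fun a ha => (not_le.1 (mem_filter.1 ha).2).le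
      _ ≤ _ := sum_le_sum_of_subset_of_nonneg (filter_subset _ _) fun _ _ _ => by positivity
  have h3 : (#(X.filter fun a => (#(X.filter fun x => B a x) : ℝ) ≤ #X / 4) : ℝ) +
      #(X.filter fun a => ¬ (#(X.filter fun x => B a x) : ℝ) ≤ #X / 4) = #X := by
    exact_mod_cast card_filter_add_card_filter_not (s := X) _
  have h4 : (#(X.filter fun a => ¬ (#(X.filter fun x => B a x) : ℝ) ≤ #X / 4) : ℝ) ≤ #X / 4 := by
    refine le_of_mul_le_mul_right ?_ (show (0 : ℝ) < #X / 4 by positivity)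
    rw [← h1] at h2
    nlinarith
  linarith

lemma bsg_count (A S X A2 : Finset G) (t : ℝ) (ht : 0 ≤ t)
    (hA2 : ∀ a ∈ A2, (#(X.filter fun x => (#(bsg_C A S a x) : ℝ) < t) : ℝ) ≤ #X / 4) :
    (#(A2 - A2) : ℝ) * (#X / 2 * t ^ 2) ≤ (#S : ℝ) ^ 4 := by
  have hf : ∀ d : G, ∃ p : G × G, d ∈ A2 - A2 → p.1 ∈ A2 ∧ p.2 ∈ A2 ∧ p.1 - p.2 = d := by
    intro d
    by_cases hd : d ∈ A2 - A2
    · obtain ⟨a, ha, a', ha', rfl⟩ := mem_sub.1 hd
      exact ⟨(a, a'), fun _ => ⟨ha, ha', rfl⟩⟩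
    · exact ⟨(0, 0), fun h => absurd h hd⟩
  choose f hf using hf
  let good : G → Finset G := fun d => X.filter fun x =>
    ¬ (#(bsg_C A S (f d).1 x) : ℝ) < t ∧ ¬ (#(bsg_C A S (f d).2 x) : ℝ) < t
  have hgood : ∀ d ∈ A2 - A2, (#X : ℝ) / 2 ≤ #(good d) := by
    intro d hd
    obtain ⟨h1, h2, -⟩ := hf d hd
    have hs : X ⊆ good d ∪ ((X.filter fun x => (#(bsg_C A S (f d).1 x) : ℝ) < t) ∪
        X.filter fun x => (#(bsg_C A S (f d).2 x) : ℝ) < t) := by
      intro x hx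
      simp only [good, mem_union, mem_filter]
      tauto
    have hc : #X ≤ #(good d) + (#(X.filter fun x => (#(bsg_C A S (f d).1 x) : ℝ) < t) +
        #(X.filter fun x => (#(bsg_C A S (f d).2 x) : ℝ) < t)) :=
      (card_le_card hs).trans ((card_union_le _ _).trans
        (Nat.add_le_add_left (card_union_le _ _) _))
    have hc' : (#X : ℝ) ≤ #(good d) + (#(X.filter fun x => (#(bsg_C A S (f d).1 x) : ℝ) < t) +
        #(X.filter fun x => (#(bsg_C A S (f d).2 x) : ℝ) < t)) := by exact_mod_cast hc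
    have := hA2 _ h1
    have := hA2 _ h2
    linarith
  let T : Finset (Σ _ : G, Σ _ : G, G × G) := (A2 - A2).sigma fun d => (good d).sigma fun x =>
    bsg_C A S (f d).1 x ×ˢ bsg_C A S (f d).2 x
  have hT : #T ≤ #(S ×ˢ S ×ˢ S ×ˢ S) := by
    refine card_le_card_of_injOn (fun q => ((f q.1).1 - q.2.2.1, q.2.1 - q.2.2.1,
      q.2.1 - q.2.2.2, (f q.1).2 - q.2.2.2)) ?_ ?_
    · rintro ⟨d, x, b1, b2⟩ hq
      simp only [T, coe_sigma, Set.mem_sigma_iff, mem_coe, mem_sigma, mem_product, bsg_C,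
        mem_filter] at hq
      simp only [mem_coe, mem_product]
      tauto
    · rintro ⟨d, x, b1, b2⟩ hq ⟨d', x', b1', b2'⟩ hq' h
      have hd : d ∈ A2 - A2 := (mem_sigma.1 (mem_coe.1 hq)).1
      have hd' : d' ∈ A2 - A2 := (mem_sigma.1 (mem_coe.1 hq')).1
      simp only [Prod.mk.injEq] at h
      obtain ⟨e1, e2, e3, e4⟩ := h
      have k1 := (hf d hd).2.2
      have k2 := (hf d' hd').2.2
      have e : d = d' := by
        calc d = ((f d).1 - b1) - (x - b1) + (x - b2) - ((f d).2 - b2) := by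
              rw [show ((f d).1 - b1) - (x - b1) + (x - b2) - ((f d).2 - b2) =
                (f d).1 - (f d).2 by abel, k1]
          _ = ((f d').1 - b1') - (x' - b1') + (x' - b2') - ((f d').2 - b2') := by
              rw [e1, e2, e3, e4]
          _ = d' := by
              rw [show ((f d').1 - b1') - (x' - b1') + (x' - b2') - ((f d').2 - b2') =
                (f d').1 - (f d').2 by abel, k2]
      subst e
      have g1 : b1 = b1' := sub_right_injective e1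
      have g2 : b2 = b2' := sub_right_injective e4
      subst g1 g2
      have g3 : x = x' := sub_left_injective e2
      subst g3
      rfl
  have hT' : (#T : ℝ) ≤ (#S : ℝ) ^ 4 := by
    have : (#T : ℝ) ≤ #(S ×ˢ S ×ˢ S ×ˢ S) := by exact_mod_cast hT
    simp only [card_product] at this
    push_cast at this
    calc _ ≤ _ := this
      _ = _ := by ring
  refine le_trans ?_ hT'
  simp only [T, card_sigma, card_product]
  push_cast
  calc (#(A2 - A2) : ℝ) * (#X / 2 * t ^ 2) = ∑ _d ∈ A2 - A2, ((#X : ℝ) / 2 * t ^ 2) := by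
        rw [sum_const, nsmul_eq_mul]
    _ ≤ _ := by
        refine sum_le_sum fun d hd => ?_
        calc (#X : ℝ) / 2 * t ^ 2 ≤ #(good d) * t ^ 2 :=
              mul_le_mul_of_nonneg_right (hgood d hd) (by positivity)
          _ = ∑ _x ∈ good d, t ^ 2 := by rw [sum_const, nsmul_eq_mul]
          _ ≤ _ := by
              refine sum_le_sum fun x hx => ?_
              obtain ⟨-, h1, h2⟩ := mem_filter.1 hx
              rw [sq]
              exact mul_le_mul (not_lt.1 h1) (not_lt.1 h2) ht (by positivity)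

end

theorem bsg : StmtBSG := by
  intro G _ _ A S θ κ hA hθ h hS
  have hn : (0 : ℝ) < #A := by exact_mod_cast hA.card_pos
  obtain ⟨b, -, hb⟩ := bsg_exists A S θ hA hθ h
  set X := bsg_N A S b with hX
  have hXA : X ⊆ A := filter_subset _ _
  have hx0 : (0 : ℝ) ≤ #X := by positivity
  have hbad : (0 : ℝ) ≤ #((X ×ˢ X).filter
    fun p => (#(bsg_C A S p.1 p.2) : ℝ) < θ ^ 2 / 32 * #A) := by positivity
  have hp : 0 < θ * #A := by positivity
  have hx1 : 2 / 3 * (θ * #A) ≤ #X := by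
    refine le_of_not_gt fun hlt => ?_
    have := mul_pos hp hp
    nlinarith
  have hx : (0 : ℝ) < #X := by linarith
  have hm := bsg_markov X (fun a x => (#(bsg_C A S a x) : ℝ) < θ ^ 2 / 32 * #A) hx (by nlinarith)
  have hc := bsg_count A S X (X.filter fun a =>
    (#(X.filter fun x => (#(bsg_C A S a x) : ℝ) < θ ^ 2 / 32 * #A) : ℝ) ≤ #X / 4)
    (θ ^ 2 / 32 * #A) (by positivity) fun a ha => (mem_filter.1 ha).2
  refine ⟨X.filter fun a =>
    (#(X.filter fun x => (#(bsg_C A S a x) : ℝ) < θ ^ 2 / 32 * #A) : ℝ) ≤ #X / 4,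
    (filter_subset _ _).trans hXA, by linarith, ?_⟩
  have hS4 : (#S : ℝ) ^ 4 ≤ (κ * #A) ^ 4 := pow_le_pow_left₀ (by positivity) hS 4
  have hq : (0 : ℝ) < θ * #A / 4 * (θ ^ 2 / 32 * #A) ^ 2 := by positivity
  refine le_of_mul_le_mul_right ?_ hq
  have e : 2 ^ 12 * κ ^ 4 / θ ^ 5 * #A * (θ * #A / 4 * (θ ^ 2 / 32 * #A) ^ 2) = (κ * #A) ^ 4 := by
    field_simp
    ring
  rw [e]
  refine le_trans ?_ (hc.trans hS4)
  refine mul_le_mul_of_nonneg_left ?_ (by positivity)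
  exact mul_le_mul_of_nonneg_right (by linarith) (by positivity)

end Pool.Agent.Work.MP_11a08a_al.Cp
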