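import Pool.Agent.Work.MP_11a08a_al.Cp.Defs

/-!
The exponential sum bound from its one scale form, by pigeonholing over the scales.
-/

set_option autoImplicit false

open Finset Filter
open scoped Pointwise

namespace Pool.Agent.Work.MP_11a08a_al.Cp

/-- The scales. -/
noncomputable def bgk_a (μ : ℝ) : ℕ → ℝ
  | 0 => μ⁻¹
  | j + 1 => bgk_a μ j ^ 2 / 2

theorem bgk_a_pos {μ : ℝ} (hμ : 2 ≤ μ) (j : ℕ) : 0 < bgk_a μ j := by
  induction j with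
  | zero => simp only [bgk_a]; positivity
  | succ j ih => simp only [bgk_a]; positivity

theorem bgk_a_le {μ : ℝ} (hμ : 2 ≤ μ) (j : ℕ) : bgk_a μ j ≤ μ⁻¹ := by
  have h1 : μ⁻¹ ≤ 1 := inv_le_one_of_one_le₀ (by linarith)
  induction j with
  | zero => simp only [bgk_a]; exact le_rfl
  | succ j ih =>
    simp only [bgk_a]
    have hp := bgk_a_pos hμ j
    nlinarith

theorem bgk_a_ge {μ : ℝ} (hμ : 2 ≤ μ) (j : ℕ) : μ ≤ μ ^ 2 ^ (j + 1) * bgk_a μ j := by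
  induction j with
  | zero =>
    simp only [bgk_a]
    have : μ ≠ 0 := by positivity
    field_simp
    norm_num
  | succ j ih =>
    simp only [bgk_a]
    have e : μ ^ 2 ^ (j + 1 + 1) * (bgk_a μ j ^ 2 / 2) = (μ ^ 2 ^ (j + 1) * bgk_a μ j) ^ 2 / 2 := by
      rw [pow_succ 2 (j + 1), pow_mul]; ring
    rw [e]
    nlinarith

theorem bgk_card_le {r : ℕ} [Fact r.Prime] (U : Finset (ZMod r)) (α : ℝ) :
    (#(spec U α) : ℝ) ≤ r := by
  have h : #(spec U α) ≤ Fintype.card (ZMod r) := card_le_univ _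
  rw [ZMod.card] at h
  exact_mod_cast h

theorem bgk_mem {r : ℕ} [Fact r.Prime] (U : Finset (ZMod r)) {α β : ℝ} (hab : α ≤ β)
    {t : ZMod r} (ht : β * #U ≤ ‖phi U t‖) : t ∈ spec U α := by
  unfold spec
  simp only [mem_filter, mem_univ, true_and]
  exact le_trans (mul_le_mul_of_nonneg_right hab (Nat.cast_nonneg _)) ht

/-- Some scale has slow growth. -/
theorem bgk_pigeon (f : ℕ → ℝ) (lam : ℝ) (J : ℕ) (hJ : 1 ≤ J) (hl : 0 < lam) (h0 : 1 ≤ f 0)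
    (hJ' : f J ≤ lam ^ J) : ∃ j < J, f (j + 1) ≤ lam * f j := by
  by_contra hcon
  push Not at hcon
  have key : ∀ j, j + 1 ≤ J → lam ^ (j + 1) < f (j + 1) := by
    intro j
    induction j with
    | zero =>
      intro hj
      have h1 := hcon 0 (by omega)
      have h2 := mul_le_mul_of_nonneg_left h0 hl.le
      have h3 : lam ^ (0 + 1) = lam := by ring
      linarith
    | succ j ih =>
      intro hj
      have h1 := ih (by omega)
      have h2 := hcon (j + 1) (by omega)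
      have h3 : lam ^ (j + 1 + 1) = lam * lam ^ (j + 1) := by ring
      have h4 := mul_lt_mul_of_pos_left h1 hl
      linarith
  obtain ⟨j, rfl⟩ : ∃ j, J = j + 1 := ⟨J - 1, by omega⟩
  exact absurd (key j le_rfl) (not_lt.mpr hJ')

theorem bgk (h : StmtBGK0) : StmtBGK := by
  intro η hη
  obtain ⟨n, hn⟩ := exists_nat_ge (1 / η)
  have hn1 : 1 ≤ η * n := by
    rw [div_le_iff₀ hη] at hn; linarith
  have hn0 : n ≠ 0 := by
    rintro rfl
    norm_num at hn1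
  obtain ⟨c, hc⟩ := h (n + 1)
  obtain ⟨J, hJ⟩ : ∃ J, J = (c + 4) * n := ⟨_, rfl⟩
  have hJ1 : 1 ≤ J := by
    rw [hJ]; exact Nat.one_le_iff_ne_zero.mpr (Nat.mul_ne_zero (by omega) hn0)
  obtain ⟨N, hN⟩ : ∃ N, N = 2 ^ (J + 1) * J := ⟨_, rfl⟩
  have hN0 : N ≠ 0 := by
    rw [hN]; exact Nat.mul_ne_zero (by positivity) (by omega)
  have hNpos : (0 : ℝ) < N := by exact_mod_cast Nat.pos_of_ne_zero hN0
  refine ⟨(N : ℝ)⁻¹, by positivity, (2 ^ 13) ^ N, ?_⟩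
  intro r _ U hr hU hcard t ht
  have hr5 : 5 ≤ r := le_trans (le_trans (by norm_num) (Nat.le_self_pow hN0 (2 ^ 13))) hr
  have hr1 : (1 : ℝ) ≤ r := by exact_mod_cast (by omega : 1 ≤ r)
  have hr0 : (0 : ℝ) ≤ r := by linarith
  obtain ⟨μ, hμ⟩ : ∃ μ : ℝ, μ = (r : ℝ) ^ (N : ℝ)⁻¹ := ⟨_, rfl⟩
  have hμ0 : 0 ≤ μ := by rw [hμ]; exact Real.rpow_nonneg hr0 _
  have hμN : μ ^ N = r := by rw [hμ]; exact Real.rpow_inv_natCast_pow hr0 hN0
  have hμ13 : (2 : ℝ) ^ 13 ≤ μ := by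
    refine le_of_pow_le_pow_left₀ hN0 hμ0 ?_
    rw [hμN]; exact_mod_cast hr
  have hμ2 : 2 ≤ μ := le_trans (by norm_num) hμ13
  have hμ1 : 1 ≤ μ := by linarith
  rw [Real.rpow_neg hr0, ← hμ]
  by_contra hcon
  have hbig : μ⁻¹ * #U ≤ ‖phi U t‖ := (not_le.mp hcon).le
  obtain ⟨lam, hlam⟩ : ∃ lam : ℝ, lam = μ ^ 2 ^ (J + 1) := ⟨_, rfl⟩
  have hlamJ : lam ^ J = r := by rw [hlam, ← pow_mul, ← hN, hμN]
  have hlam13 : (2 : ℝ) ^ 13 ≤ lam := by
    rw [hlam]; exact le_trans hμ13 (le_self_pow₀ hμ1 (by positivity))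
  have hlam1 : 1 < lam := lt_of_lt_of_le (by norm_num) hlam13
  have hlam0 : 0 < lam := by linarith
  have hmem : ∀ j, t ∈ spec U (bgk_a μ j) := fun j => bgk_mem U (bgk_a_le hμ2 j) hbig
  obtain ⟨j, hj, hgrow⟩ := bgk_pigeon (fun j => (#(spec U (bgk_a μ j)) : ℝ)) lam J hJ1 hlam0
    (by exact_mod_cast card_pos.mpr ⟨t, hmem 0⟩) (by rw [hlamJ]; exact bgk_card_le U _)
  have hUn : (r : ℝ) ≤ (#U : ℝ) ^ n := by
    calc (r : ℝ) = (r : ℝ) ^ (1 : ℝ) := (Real.rpow_one _).symm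
      _ ≤ (r : ℝ) ^ (η * n) := Real.rpow_le_rpow_of_exponent_le hr1 hn1
      _ = ((r : ℝ) ^ η) ^ n := Real.rpow_mul_natCast hr0 η n
      _ ≤ (#U : ℝ) ^ n := pow_le_pow_left₀ (Real.rpow_nonneg hr0 _) hcard n
  have hU4 : lam ^ (c + 4) ≤ #U := by
    refine le_of_pow_le_pow_left₀ hn0 (Nat.cast_nonneg _) ?_
    rw [← pow_mul, ← hJ, hlamJ]; exact hUn
  have hα : 1 / lam ≤ bgk_a μ j ^ 2 / 2 := by
    have h1 := bgk_a_ge hμ2 (j + 1)
    have h2 : μ ^ 2 ^ (j + 1 + 1) ≤ lam := by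
      rw [hlam]
      exact pow_le_pow_right₀ hμ1 (Nat.pow_le_pow_right (by norm_num) (by omega))
    have h3 := bgk_a_pos hμ2 (j + 1)
    have h4 := mul_le_mul_of_nonneg_right h2 h3.le
    rw [div_le_iff₀ hlam0]
    simp only [bgk_a] at h1 h4
    linarith
  have hT : (r : ℝ) ≤ (#U / lam ^ 2) ^ 2 ^ (n + 1) := by
    have h1 : lam ^ (c + 2) ≤ #U / lam ^ 2 := by
      rw [le_div_iff₀ (by positivity), ← pow_add]; exact hU4
    have h2 : J ≤ (c + 2) * 2 ^ (n + 1) := by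
      have h3 : n ≤ 2 ^ n := Nat.lt_two_pow_self.le
      rw [hJ, pow_succ]
      nlinarith
    calc (r : ℝ) = lam ^ J := hlamJ.symm
      _ ≤ lam ^ ((c + 2) * 2 ^ (n + 1)) := pow_le_pow_right₀ hlam1.le h2
      _ = (lam ^ (c + 2)) ^ 2 ^ (n + 1) := pow_mul _ _ _
      _ ≤ _ := pow_le_pow_left₀ (by positivity) h1 _
  have hfin := hc r U lam (bgk_a μ j) hU hr5 hlam13 (bgk_a_pos hμ2 j) hα ⟨t, hmem j, ht⟩ hgrow hT
  have hlt : lam ^ c < lam ^ (c + 4) := pow_lt_pow_right₀ hlam1 (by omega)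
  linarith

end Pool.Agent.Work.MP_11a08a_al.Cp
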