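import Pool.Agent.Work.MP_11a08a_al.Cp.Defs

set_option autoImplicit false

open Finset
open scoped Pointwise

namespace Pool.Agent.Work.MP_11a08a_al.Cp

theorem bgk0_inv {θ lam : ℝ} (hθ : 0 < θ) (h : 1 ≤ θ * lam) : 1 / θ ≤ lam := by
  rw [div_le_iff₀ hθ]; linarith

theorem bgk0_diff {θ lam a a' : ℝ} (hθ : 0 < θ) (h : 1 ≤ θ * lam) (hl : 2 ^ 13 ≤ lam)
    (ha : 0 ≤ a) (ha' : 0 ≤ a') (haa : a ≤ 2 * lam * a') :
    2 ^ 12 * lam ^ 4 / θ ^ 5 * a ≤ lam ^ 11 * a' := by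
  have l0 : 0 ≤ lam := by linarith [show (0 : ℝ) ≤ 2 ^ 13 by positivity]
  have h1 : (1 / θ) ^ 5 ≤ lam ^ 5 := pow_le_pow_left₀ (by positivity) (bgk0_inv hθ h) 5
  calc 2 ^ 12 * lam ^ 4 / θ ^ 5 * a = 2 ^ 12 * lam ^ 4 * (1 / θ) ^ 5 * a := by ring
    _ ≤ 2 ^ 12 * lam ^ 4 * lam ^ 5 * (2 * lam * a') := by gcongr
    _ = 2 ^ 13 * (lam ^ 10 * a') := by ring
    _ ≤ lam * (lam ^ 10 * a') := by gcongr
    _ = lam ^ 11 * a' := by ring

theorem bgk0_dil {θ lam : ℝ} (hθ : 0 < θ) (h : 1 ≤ θ * lam) (hl : 2 ^ 13 ≤ lam) :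
    2 * (lam ^ 11) ^ 4 / (θ / 2) ≤ lam ^ 46 := by
  have l0 : 0 ≤ lam := by linarith [show (0 : ℝ) ≤ 2 ^ 13 by positivity]
  have l4 : 4 ≤ lam := by linarith [show (4 : ℝ) ≤ 2 ^ 13 by norm_num]
  have h1 := bgk0_inv hθ h
  calc 2 * (lam ^ 11) ^ 4 / (θ / 2) = 4 * lam ^ 44 * (1 / θ) := by ring
    _ ≤ lam * lam ^ 44 * lam := by gcongr
    _ = lam ^ 46 := by ring

theorem bgk0 (h1 : StmtBSG) (h2 : StmtSP) (h3 : StmtSpec) (h4 : StmtInv) : StmtBGK0 := by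
  intro T
  obtain ⟨c, hc⟩ := h2 T
  refine ⟨46 * c + 2, ?_⟩
  intro r _ U lam α hU hr hl hα hθ ⟨t, ht, ht0⟩ hS hT
  obtain ⟨p1, p2, p3⟩ := h3 r U hU
  have l8 : 8 ≤ lam := by linarith [show (8 : ℝ) ≤ 2 ^ 13 by norm_num]
  have l0 : 0 < lam := by linarith
  have θ0 : 0 < α ^ 2 / 2 := by positivity
  have hθl : 1 ≤ α ^ 2 / 2 * lam := by rwa [div_le_iff₀ l0] at hθ
  have hinv : ∀ u ∈ U, ∀ a ∈ spec U α, u * a ∈ spec U α := by
    intro u hu a ha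
    simp only [spec, mem_filter, mem_univ, true_and] at ha ⊢
    rwa [p2 a u hu]
  have hAU : (#U : ℝ) ≤ #(spec U α) := by
    exact_mod_cast card_le_card_of_injOn (fun u => u * t) (fun u hu => hinv u hu t ht)
      fun u _ v _ e => mul_right_cancel₀ ht0 e
  have n0 : (0 : ℝ) < #U := by exact_mod_cast card_pos.2 ⟨1, hU.one⟩
  obtain ⟨A', hsub, hA1, hA2⟩ := h1 (ZMod r) (spec U α) (spec U (α ^ 2 / 2)) (α ^ 2 / 2) lam
    ⟨t, ht⟩ θ0 (p3 α hα) hS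
  have a0 : (0 : ℝ) < #(spec U α) := lt_of_lt_of_le n0 hAU
  have a1 : (0 : ℝ) < #A' := lt_of_lt_of_le (by positivity) hA1
  have hne : A'.Nonempty := card_pos.1 (by exact_mod_cast a1)
  have haa : (#(spec U α) : ℝ) ≤ 2 * lam * #A' := by
    have e1 := mul_le_mul_of_nonneg_left hA1 l0.le
    have e2 := mul_le_mul_of_nonneg_right hθl a0.le
    linarith
  have hD := hA2.trans (bgk0_diff θ0 hθl hl a0.le a1.le haa)
  have l1 : 1 ≤ lam := by linarith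
  obtain ⟨B, -, hB1, hB2⟩ := h4 r U (spec U α) A' (α ^ 2 / 2 / 2) (lam ^ 11) hU hinv hsub hne
    (by positivity) hA1 (one_le_pow₀ l1) hD
  have r5 : (5 : ℝ) ≤ r := by exact_mod_cast hr
  have x1 : 1 ≤ (#U : ℝ) / lam ^ 2 := by
    by_contra hx
    have := pow_le_one₀ (n := 2 ^ T) (by positivity) (not_le.1 hx).le
    linarith
  have xB : (#U : ℝ) / lam ^ 2 ≤ #B / 2 := by
    rw [div_le_iff₀ (by positivity)]
    have e1 := mul_le_mul_of_nonneg_left hB1 l0.le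
    have e2 := mul_le_mul_of_nonneg_right hθl n0.le
    have e3 : (#U : ℝ) ≤ 4 * (lam * #B) := by linarith
    have e4 : (0 : ℝ) ≤ lam * #B := by positivity
    have e5 := mul_le_mul_of_nonneg_right l8 e4
    calc (#U : ℝ) ≤ lam * (lam * #B) / 2 := by linarith
      _ = #B / 2 * lam ^ 2 := by ring
  have hW : (1 : ℝ) ≤ lam ^ 46 := one_le_pow₀ l1
  have key := hc r A' B (lam ^ 46) hr hne hW
    (hD.trans (mul_le_mul_of_nonneg_right (pow_le_pow_right₀ l1 (by norm_num)) a1.le))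
    (fun u hu => (hB2 u hu).trans (mul_le_mul_of_nonneg_right (bgk0_dil θ0 hθl hl) a1.le))
    (by exact_mod_cast (show (2 : ℝ) ≤ #B by linarith))
    ((show (r : ℝ) / 4 ≤ r by linarith).trans
      (hT.trans (pow_le_pow_left₀ (by positivity) xB _)))
  have w0 : (0 : ℝ) < (lam ^ 46) ^ c := by positivity
  rw [show lam ^ (46 * c + 2) = lam * (lam * (lam ^ 46) ^ c) by rw [← pow_mul]; ring]
  generalize (lam ^ 46) ^ c = w at key w0 ⊢
  have e5 := mul_le_mul_of_nonneg_right l8 (show 0 ≤ lam * w by positivity)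
  have e6 : 0 ≤ lam * w := by positivity
  rcases min_choice ((#A' : ℝ) ^ 2) ((r : ℝ) / 2) with hm | hm <;> rw [hm] at key
  · have e1 : (#A' : ℝ) ≤ 2 * w := le_of_mul_le_mul_right (by nlinarith) a1
    have e2 := mul_le_mul_of_nonneg_left e1 l0.le
    linarith
  · have e0 : (#A' : ℝ) ≤ #(spec U α) := by exact_mod_cast card_le_card hsub
    have e1 := mul_le_mul_of_nonneg_left e0 w0.le
    have e2 := p1 α hα
    have e3 : α ^ 2 * #U ≤ 4 * w := le_of_mul_le_mul_left (by linarith) a0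
    have e4 := mul_le_mul_of_nonneg_left e3 l0.le
    have e7 := mul_le_mul_of_nonneg_right hθl n0.le
    linarith

end Pool.Agent.Work.MP_11a08a_al.Cp
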