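import Pool.Agent.Work.MP_11a08a_al.Cp.Defs

/-!
A second linear relation is rare.
-/

set_option autoImplicit false

open Finset

namespace Pool.Agent.Work.MP_11a08a_al.Cp

/-- The signs of the two halves. -/
def cnt1_eps (r k : ℕ) : Fin k ⊕ Fin k → ZMod r := Sum.elim (fun _ => 1) (fun _ => -1)

lemma cnt1_eps_sq (r k : ℕ) (i : Fin k ⊕ Fin k) : cnt1_eps r k i * cnt1_eps r k i = 1 := by
  rcases i with i | i <;> simp [cnt1_eps]

lemma cnt1_eps_sum {r k : ℕ} (w : Fin k ⊕ Fin k → ZMod r) :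
    ∑ i, cnt1_eps r k i * w i = half w - ∑ i, w (Sum.inr i) := by
  simp [cnt1_eps, half, Fintype.sum_sum_type, sub_eq_add_neg]

variable {r : ℕ} [Fact r.Prime]

lemma cnt1_map_sum {ι : Type} (s : Finset ι) (f : ι → ZMod r) :
    (ZMod.stdAddChar (∑ i ∈ s, f i) : ℂ) = ∏ i ∈ s, ZMod.stdAddChar (f i) := by
  classical
  induction s using Finset.induction_on with
  | empty => simp
  | insert a s ha ih => rw [sum_insert ha, prod_insert ha, AddChar.map_add_eq_mul, ih]

lemma cnt1_orth (x : ZMod r) :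
    ∑ s : ZMod r, (ZMod.stdAddChar (s * x) : ℂ) = if x = 0 then (r : ℂ) else 0 := by
  rw [AddChar.sum_mulShift x (ZMod.isPrimitive_stdAddChar r), ZMod.card]
  split_ifs <;> simp

lemma cnt1_norm_le (U : Finset (ZMod r)) (t : ZMod r) : ‖phi U t‖ ≤ #U := by
  refine (norm_sum_le _ _).trans ?_
  simp

lemma cnt1_id (U : Finset (ZMod r)) (k : ℕ) (c : Fin k ⊕ Fin k → ZMod r) :
    (#((sol U k).filter fun w => ∑ i, c i * w i = 0) : ℂ) * (r : ℂ) ^ 2 =
      ∑ p : ZMod r × ZMod r, ∏ i, phi U (p.1 * cnt1_eps r k i + p.2 * c i) := by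
  have h1 : ∀ p : ZMod r × ZMod r, ∏ i, phi U (p.1 * cnt1_eps r k i + p.2 * c i) =
      ∑ w ∈ Fintype.piFinset fun _ : Fin k ⊕ Fin k => U,
        (ZMod.stdAddChar (p.1 * ∑ i, cnt1_eps r k i * w i) : ℂ) *
          ZMod.stdAddChar (p.2 * ∑ i, c i * w i) := fun p => by
    simp only [phi]
    rw [Finset.prod_univ_sum]
    refine sum_congr rfl fun w _ => ?_
    rw [← cnt1_map_sum, ← AddChar.map_add_eq_mul, mul_sum, mul_sum, ← sum_add_distrib]
    congr 1
    exact sum_congr rfl fun i _ => by ring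
  simp only [h1]
  rw [sum_comm, sol, filter_filter, card_filter]
  push_cast
  rw [sum_mul]
  refine sum_congr rfl fun w _ => ?_
  rw [Fintype.sum_prod_type]
  dsimp only
  rw [← sum_mul_sum, cnt1_orth, cnt1_orth, cnt1_eps_sum]
  simp only [sub_eq_zero]
  by_cases a1 : half w = ∑ i, w (Sum.inr i) <;> by_cases a2 : ∑ i, c i * w i = 0 <;>
    simp [a1, a2, sq]

lemma cnt1_card (k : ℕ) (c : Fin k ⊕ Fin k → ZMod r) :
    #(univ.filter fun p : ZMod r × ZMod r => ∃ i, p.1 * cnt1_eps r k i + p.2 * c i = 0) ≤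
      2 * k * r := by
  have h1 : (univ.filter fun p : ZMod r × ZMod r => ∃ i, p.1 * cnt1_eps r k i + p.2 * c i = 0) ⊆
      ((univ : Finset (Fin k ⊕ Fin k)) ×ˢ (univ : Finset (ZMod r))).image
        fun q => (-(q.2 * c q.1 * cnt1_eps r k q.1), q.2) := by
    intro p hp
    obtain ⟨i, hi⟩ := (mem_filter.1 hp).2
    refine mem_image.2 ⟨(i, p.2), by simp, Prod.ext ?_ rfl⟩
    have := cnt1_eps_sq r k i
    show -(p.2 * c i * cnt1_eps r k i) = p.1
    linear_combination (-cnt1_eps r k i) * hi + p.1 * this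
  refine (card_le_card h1).trans (card_image_le.trans ?_)
  simp [two_mul]

theorem cnt1 : StmtCnt1 := by
  intro r _ U k θ hθ hr hφ c i₀ hc0 hc
  have hcard : Fintype.card (Fin k ⊕ Fin k) = 2 * k := by simp [two_mul]
  set M : ℝ := (#U : ℝ) ^ (2 * k) with hM
  have hM0 : 0 ≤ M := by positivity
  have hb : ∀ p : ZMod r × ZMod r, ‖∏ i, phi U (p.1 * cnt1_eps r k i + p.2 * c i)‖ ≤
      (if p = 0 then M else 0) + θ ^ (2 * k) * M +
        (if ∃ i, p.1 * cnt1_eps r k i + p.2 * c i = 0 then θ * M else 0) := fun p => by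
    have h0 : 0 ≤ θ ^ (2 * k) * M := by positivity
    have h1 : 0 ≤ θ * M := by positivity
    rw [norm_prod]
    by_cases hp : p = 0
    · have : ∏ i, ‖phi U (p.1 * cnt1_eps r k i + p.2 * c i)‖ ≤ M := by
        refine (prod_le_prod (fun i _ => norm_nonneg _) fun i _ => cnt1_norm_le U _).trans ?_
        rw [prod_const, card_univ, hcard]
      rw [if_pos hp]
      split_ifs <;> linarith
    rw [if_neg hp]
    by_cases hz : ∃ i, p.1 * cnt1_eps r k i + p.2 * c i = 0
    · rw [if_pos hz]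
      obtain ⟨j, hj⟩ : ∃ j, p.1 * cnt1_eps r k j + p.2 * c j ≠ 0 := by
        by_contra hcon
        push Not at hcon
        have e1 : p.1 = 0 := by
          have a1 := hcon i₀
          have a2 := cnt1_eps_sq r k i₀
          rw [hc0] at a1
          linear_combination (cnt1_eps r k i₀) * a1 - p.1 * a2
        obtain ⟨i₁, hi₁⟩ := Function.ne_iff.1 hc
        have e2 : p.2 = 0 := by
          have a1 := hcon i₁
          rw [e1, zero_mul, zero_add] at a1
          exact (mul_eq_zero.1 a1).resolve_right hi₁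
        exact hp (Prod.ext e1 e2)
      have h2 : ∏ i, ‖phi U (p.1 * cnt1_eps r k i + p.2 * c i)‖ ≤
          ∏ i : Fin k ⊕ Fin k, ((if i = j then θ else 1) * (#U : ℝ)) := by
        refine prod_le_prod (fun i _ => norm_nonneg _) fun i _ => ?_
        split_ifs with e
        · rw [e]; exact hφ _ hj
        · rw [one_mul]; exact cnt1_norm_le U _
      rw [prod_mul_distrib, prod_ite_eq', if_pos (mem_univ _), prod_const, card_univ, hcard] at h2
      linarith
    · rw [if_neg hz]
      push Not at hz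
      have h2 : ∏ i, ‖phi U (p.1 * cnt1_eps r k i + p.2 * c i)‖ ≤
          ∏ _i : Fin k ⊕ Fin k, (θ * (#U : ℝ)) :=
        prod_le_prod (fun i _ => norm_nonneg _) fun i _ => hφ _ (hz i)
      rw [prod_const, card_univ, hcard, mul_pow] at h2
      linarith
  have h3 := congrArg norm (cnt1_id U k c)
  rw [norm_mul, norm_pow, Complex.norm_natCast, Complex.norm_natCast] at h3
  rw [h3]
  refine ((norm_sum_le _ _).trans (sum_le_sum fun p _ => hb p)).trans ?_
  rw [sum_add_distrib, sum_add_distrib, sum_ite_eq', if_pos (mem_univ _), sum_const, card_univ,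
    Fintype.card_prod, ZMod.card, ← sum_filter, sum_const, nsmul_eq_mul, nsmul_eq_mul]
  have h4 : (#(univ.filter fun p : ZMod r × ZMod r =>
      ∃ i, p.1 * cnt1_eps r k i + p.2 * c i = 0) : ℝ) ≤ 2 * k * r := by
    exact_mod_cast cnt1_card k c
  have h5 : ((r * r : ℕ) : ℝ) * θ ^ (2 * k) ≤ 1 := by
    have h6 : 0 ≤ (r : ℝ) * θ ^ k := by positivity
    have := mul_le_one₀ hr h6 hr
    push_cast
    rw [two_mul, pow_add]
    linarith
  have h7 := mul_le_mul_of_nonneg_right h4 (mul_nonneg hθ hM0)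
  have h8 := mul_le_mul_of_nonneg_right h5 hM0
  nlinarith

end Pool.Agent.Work.MP_11a08a_al.Cp
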