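import Pool.Agent.Work.MP_11a08a_al.Cp.Defs

set_option autoImplicit false

open Finset

namespace Pool.Agent.Work.MP_11a08a_al.Cp

/-- Tuples from `U` with sum `z`. -/
def cnt2_fib {r : ℕ} [Fact r.Prime] (U : Finset (ZMod r)) (k : ℕ) (z : ZMod r) :
    Finset (Fin k → ZMod r) :=
  (Fintype.piFinset fun _ => U).filter fun v => ∑ i, v i = z

theorem cnt2_card {r : ℕ} [Fact r.Prime] (U : Finset (ZMod r)) (k : ℕ) (Z : Finset (ZMod r)) :
    #((sol U k).filter fun w => half w ∈ Z) = ∑ z ∈ Z, #(cnt2_fib U k z) ^ 2 := by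
  rw [card_eq_sum_card_fiberwise (s := (sol U k).filter fun w => half w ∈ Z) (f := half) (t := Z)
    (fun w hw => (mem_filter.1 (mem_coe.1 hw)).2)]
  refine sum_congr rfl fun z hz => ?_
  rw [sq, ← card_product]
  refine card_nbij' (fun w => (fun i => w (Sum.inl i), fun i => w (Sum.inr i)))
    (fun p => Sum.elim p.1 p.2) ?_ ?_ ?_ ?_
  · intro w hw
    simp only [sol, half, coe_filter, mem_filter, Fintype.mem_piFinset, Set.mem_ofPred_eq] at hw
    obtain ⟨⟨⟨h1, h2⟩, -⟩, h3⟩ := hw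
    simp only [cnt2_fib, coe_product, Set.mem_prod, mem_coe, mem_filter, Fintype.mem_piFinset]
    exact ⟨⟨fun i => h1 _, h3⟩, fun i => h1 _, h2 ▸ h3⟩
  · intro p hp
    simp only [cnt2_fib, coe_product, Set.mem_prod, mem_coe, mem_filter,
      Fintype.mem_piFinset] at hp
    obtain ⟨⟨h1, h2⟩, h3, h4⟩ := hp
    simp only [sol, half, coe_filter, mem_filter, Fintype.mem_piFinset, Set.mem_ofPred_eq,
      Sum.elim_inl, Sum.elim_inr]
    refine ⟨⟨⟨fun i => ?_, h2.trans h4.symm⟩, h2 ▸ hz⟩, h2⟩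
    rcases i with i | i
    · exact h1 i
    · exact h3 i
  · intro w _
    funext i
    rcases i with i | i <;> rfl
  · intro p _
    rfl

theorem cnt2_sum {r : ℕ} [Fact r.Prime] (U : Finset (ZMod r)) (k : ℕ) :
    ∑ z, #(cnt2_fib U k z) = #U ^ k := by
  have := card_eq_sum_card_fiberwise (s := Fintype.piFinset fun _ : Fin k => U)
    (f := fun v : Fin k → ZMod r => ∑ i, v i) (t := univ) (fun _ _ => mem_univ _)
  rw [Fintype.card_piFinset_const] at this
  exact this.symm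

theorem cnt2_fourier {r : ℕ} [Fact r.Prime] (U : Finset (ZMod r)) (k : ℕ) (z : ZMod r) :
    (r : ℂ) * #(cnt2_fib U k z) = ∑ t, phi U t ^ k * ZMod.stdAddChar (-(t * z)) := by
  have h1 : ∀ t : ZMod r, phi U t ^ k * ZMod.stdAddChar (-(t * z)) =
      ∑ v ∈ Fintype.piFinset fun _ : Fin k => U, ZMod.stdAddChar (t * (∑ i, v i - z)) := by
    intro t
    have h2 : phi U t ^ k = ∏ _i : Fin k, ∑ u ∈ U, ZMod.stdAddChar (t * u) := by
      rw [prod_const, card_univ, Fintype.card_fin, phi]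
    rw [h2, prod_univ_sum, sum_mul]
    refine sum_congr rfl fun v _ => ?_
    rw [mul_sub, sub_eq_add_neg, AddChar.map_add_eq_mul, mul_sum]
    congr 1
    exact (map_prod (ZMod.stdAddChar (N := r)).toMonoidHom
      (fun i => Multiplicative.ofAdd (t * v i)) univ).symm
  simp only [h1]
  rw [sum_comm]
  simp only [AddChar.sum_mulShift _ (ZMod.isPrimitive_stdAddChar r), ZMod.card, sub_eq_zero]
  rw [cnt2_fib, card_filter]
  push_cast
  rw [mul_sum]
  refine sum_congr rfl fun v _ => ?_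
  split_ifs <;> simp

theorem cnt2_le {r : ℕ} [Fact r.Prime] (U : Finset (ZMod r)) (k : ℕ) (θ : ℝ) (h0 : 0 ≤ θ)
    (h1 : (r : ℝ) * θ ^ k ≤ 1) (h2 : ∀ t, t ≠ 0 → ‖phi U t‖ ≤ θ * #U) (z : ZMod r) :
    (r : ℝ) * #(cnt2_fib U k z) ≤ 2 * (#U : ℝ) ^ k := by
  have e : (r : ℝ) * #(cnt2_fib U k z) = ‖(r : ℂ) * #(cnt2_fib U k z)‖ := by simp
  have hb : ∀ t : ZMod r, ‖phi U t ^ k * ZMod.stdAddChar (-(t * z))‖ ≤
      (if t = 0 then (#U : ℝ) ^ k else 0) + θ ^ k * (#U : ℝ) ^ k := by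
    intro t
    rw [norm_mul, norm_pow, ZMod.stdAddChar_apply, Circle.norm_coe, mul_one]
    have hp : 0 ≤ θ ^ k * (#U : ℝ) ^ k := by positivity
    split_ifs with ht
    · have : ‖phi U t‖ ≤ #U := by
        refine (norm_sum_le _ _).trans (le_of_eq ?_)
        simp [ZMod.stdAddChar_apply]
      have := pow_le_pow_left₀ (norm_nonneg _) this k
      linarith
    · rw [zero_add, ← mul_pow]
      exact pow_le_pow_left₀ (norm_nonneg _) (h2 t ht) k
  rw [e, cnt2_fourier]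
  refine (norm_sum_le _ _).trans ((sum_le_sum fun t _ => hb t).trans ?_)
  rw [sum_add_distrib, sum_ite_eq' univ (0 : ZMod r), if_pos (mem_univ _), sum_const, card_univ,
    ZMod.card, nsmul_eq_mul, ← mul_assoc]
  have hp : 0 ≤ (#U : ℝ) ^ k := by positivity
  nlinarith

theorem cnt2 : StmtCnt2 := by
  intro r _ U k θ h0 h1 h2
  have hr : (0 : ℝ) < r := by exact_mod_cast (Fact.out : r.Prime).pos
  have hs : (#(sol U k) : ℝ) = ∑ z, (#(cnt2_fib U k z) : ℝ) ^ 2 := by
    have := cnt2_card U k univ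
    simp only [mem_univ, filter_true] at this
    exact_mod_cast this
  have p1 : (#U : ℝ) ^ (2 * k) ≤ r * #(sol U k) := by
    have h3 := sq_sum_le_card_mul_sum_sq (s := (univ : Finset (ZMod r)))
      (f := fun z => (#(cnt2_fib U k z) : ℝ))
    have h4 : ∑ z, (#(cnt2_fib U k z) : ℝ) = (#U : ℝ) ^ k := by exact_mod_cast cnt2_sum U k
    rw [h4, card_univ, ZMod.card, ← hs, ← pow_mul, mul_comm k 2] at h3
    exact h3
  refine ⟨p1, fun Z => ?_⟩
  have h5 : ∀ z, (#(cnt2_fib U k z) : ℝ) ^ 2 * r ≤ 4 * #(sol U k) := by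
    intro z
    have h6 := cnt2_le U k θ h0 h1 h2 z
    have h7 := pow_le_pow_left₀ (by positivity) h6 2
    rw [mul_pow, mul_pow, ← pow_mul, mul_comm k 2] at h7
    refine le_of_mul_le_mul_left ?_ hr
    nlinarith
  rw [cnt2_card]
  push_cast
  rw [sum_mul]
  refine (sum_le_sum fun z _ => h5 z).trans (le_of_eq ?_)
  rw [sum_const, nsmul_eq_mul]
  ring

end Pool.Agent.Work.MP_11a08a_al.Cp
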