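import Mathlib

/-!
Definitions and statements for the characteristic `p` core of MP_11a08a_al
(paper: team store `h60_11a08a_core.md`).
-/

set_option autoImplicit false

open Finset Filter
open scoped Pointwise

namespace Pool.Agent.Work.MP_11a08a_al.Cp

/-- `U` is a multiplicative subgroup of the nonzero residues. -/
structure Grp {r : ℕ} [Fact r.Prime] (U : Finset (ZMod r)) : Prop where
  ne : ∀ u ∈ U, u ≠ 0
  one : (1 : ZMod r) ∈ U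
  mul : ∀ u ∈ U, ∀ v ∈ U, u * v ∈ U
  inv : ∀ u ∈ U, u⁻¹ ∈ U

/-- The exponential sum over `U`. -/
noncomputable def phi {r : ℕ} [Fact r.Prime] (U : Finset (ZMod r)) (t : ZMod r) : ℂ :=
  ∑ u ∈ U, ZMod.stdAddChar (t * u)

open Classical in
/-- The large spectrum. -/
noncomputable def spec {r : ℕ} [Fact r.Prime] (U : Finset (ZMod r)) (α : ℝ) : Finset (ZMod r) :=
  univ.filter fun t => α * #U ≤ ‖phi U t‖

/-- The half sum. -/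
def half {r k : ℕ} (w : Fin k ⊕ Fin k → ZMod r) : ZMod r := ∑ i, w (Sum.inl i)

/-- Tuples from `U` whose two halves have the same sum. -/
def sol {r : ℕ} [Fact r.Prime] (U : Finset (ZMod r)) (k : ℕ) : Finset (Fin k ⊕ Fin k → ZMod r) :=
  (Fintype.piFinset fun _ => U).filter fun w => half w = ∑ i, w (Sum.inr i)

/-- Balog-Szemeredi-Gowers, graph form. -/
def StmtBSG : Prop :=
  ∀ (G : Type) [AddCommGroup G] [DecidableEq G] (A S : Finset G) (θ κ : ℝ), A.Nonempty → 0 < θ →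
    θ * (#A : ℝ) ^ 2 ≤ #((A ×ˢ A).filter fun p => p.1 - p.2 ∈ S) → (#S : ℝ) ≤ κ * #A →
    ∃ A' ⊆ A, θ / 2 * #A ≤ #A' ∧ (#(A' - A') : ℝ) ≤ 2 ^ 12 * κ ^ 4 / θ ^ 5 * #A

/-- Averaging the additive energy over dilates. -/
def StmtSP1 : Prop :=
  ∀ (r : ℕ) [Fact r.Prime] (A B : Finset (ZMod r)), A.Nonempty → B.Nonempty →
    ∃ x ∈ B, min (#A ^ 2) #B ≤ 2 * #(A + x • A)

/-- One step of growth. -/
def StmtSP2 : Prop :=
  ∀ (r : ℕ) [Fact r.Prime] (B : Finset (ZMod r)), 2 ≤ #B →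
    ∃ a ∈ B - B, ∃ b ∈ B - B, ∃ c ∈ B - B, min (#B ^ 2) r ≤ 2 * #(b • B + (a + c) • B)

/-- The dilates with a small sum set are closed under products and sums. -/
def StmtSP3 : Prop :=
  ∀ (r : ℕ) [Fact r.Prime] (A : Finset (ZMod r)) (D X Y : ℝ) (x y : ZMod r), A.Nonempty →
    1 ≤ D → 1 ≤ X → 1 ≤ Y →
    (#(A - A) : ℝ) ≤ D * #A → (#(A + x • A) : ℝ) ≤ X * #A → (#(A + y • A) : ℝ) ≤ Y * #A →
    (#(A + (x * y) • A) : ℝ) ≤ X * Y * #A ∧ (#(A + (x + y) • A) : ℝ) ≤ D ^ 3 * X * Y * #A ∧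
      (#(A + (x - y) • A) : ℝ) ≤ D ^ 4 * X * Y * #A

/-- The sum-product estimate. -/
def StmtSP : Prop :=
  ∀ T : ℕ, ∃ c : ℕ, ∀ (r : ℕ) [Fact r.Prime] (A B : Finset (ZMod r)) (W : ℝ), 5 ≤ r → A.Nonempty →
    1 ≤ W → (#(A - A) : ℝ) ≤ W * #A → (∀ u ∈ B, (#(A + u • A) : ℝ) ≤ W * #A) → 2 ≤ #B →
    (r : ℝ) / 4 ≤ ((#B : ℝ) / 2) ^ 2 ^ T → min ((#A : ℝ) ^ 2) (r / 2) / 2 ≤ W ^ c * #A

/-- Parseval, invariance, and statistical closure of the spectrum under differences. -/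
def StmtSpec : Prop :=
  ∀ (r : ℕ) [Fact r.Prime] (U : Finset (ZMod r)), Grp U →
    (∀ α : ℝ, 0 < α → (#(spec U α) : ℝ) * (α ^ 2 * #U) ≤ r) ∧
    (∀ t, ∀ u ∈ U, phi U (u * t) = phi U t) ∧
    ∀ α : ℝ, 0 < α → α ^ 2 / 2 * (#(spec U α) : ℝ) ^ 2 ≤
      #((spec U α ×ˢ spec U α).filter fun p => p.1 - p.2 ∈ spec U (α ^ 2 / 2))

/-- A dense part of an invariant set has a small sum set with many of its dilates. -/
def StmtInv : Prop :=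
  ∀ (r : ℕ) [Fact r.Prime] (U A A' : Finset (ZMod r)) (ρ D : ℝ), Grp U →
    (∀ u ∈ U, ∀ a ∈ A, u * a ∈ A) → A' ⊆ A → A'.Nonempty → 0 < ρ → ρ * #A ≤ #A' → 1 ≤ D →
    (#(A' - A') : ℝ) ≤ D * #A' →
    ∃ B ⊆ U, ρ / 2 * #U ≤ #B ∧ ∀ u ∈ B, (#(A' + u • A') : ℝ) ≤ 2 * D ^ 4 / ρ * #A'

/-- The exponential sum bound at a scale where the spectrum does not grow. -/
def StmtBGK0 : Prop :=
  ∀ T : ℕ, ∃ c : ℕ, ∀ (r : ℕ) [Fact r.Prime] (U : Finset (ZMod r)) (lam α : ℝ), Grp U → 5 ≤ r →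
    2 ^ 13 ≤ lam → 0 < α → 1 / lam ≤ α ^ 2 / 2 → (∃ t ∈ spec U α, t ≠ 0) →
    (#(spec U (α ^ 2 / 2)) : ℝ) ≤ lam * #(spec U α) → (r : ℝ) ≤ (#U / lam ^ 2) ^ 2 ^ T →
    (#U : ℝ) ≤ lam ^ c

/-- The Bourgain-Glibichuk-Konyagin bound. -/
def StmtBGK : Prop :=
  ∀ η : ℝ, 0 < η → ∃ δ : ℝ, 0 < δ ∧ ∃ r₀ : ℕ, ∀ (r : ℕ) [Fact r.Prime] (U : Finset (ZMod r)),
    r₀ ≤ r → Grp U → (r : ℝ) ^ η ≤ #U → ∀ t, t ≠ 0 → ‖phi U t‖ ≤ (r : ℝ) ^ (-δ) * #U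

/-- The number of solutions, and the law of the half sum. -/
def StmtCnt2 : Prop :=
  ∀ (r : ℕ) [Fact r.Prime] (U : Finset (ZMod r)) (k : ℕ) (θ : ℝ), 0 ≤ θ → (r : ℝ) * θ ^ k ≤ 1 →
    (∀ t, t ≠ 0 → ‖phi U t‖ ≤ θ * #U) →
    (#U : ℝ) ^ (2 * k) ≤ r * #(sol U k) ∧
    ∀ Z : Finset (ZMod r), (#((sol U k).filter fun w => half w ∈ Z) : ℝ) * r ≤ 4 * #Z * #(sol U k)

/-- A second linear relation is rare. -/
def StmtCnt1 : Prop :=
  ∀ (r : ℕ) [Fact r.Prime] (U : Finset (ZMod r)) (k : ℕ) (θ : ℝ), 0 ≤ θ → (r : ℝ) * θ ^ k ≤ 1 →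
    (∀ t, t ≠ 0 → ‖phi U t‖ ≤ θ * #U) →
    ∀ (c : Fin k ⊕ Fin k → ZMod r) (i₀ : Fin k ⊕ Fin k), c i₀ = 0 → c ≠ 0 →
      (#((sol U k).filter fun w => ∑ i, c i * w i = 0) : ℝ) * r ^ 2 ≤
        (2 + 2 * k * r * θ) * (#U : ℝ) ^ (2 * k)

open Classical in
/-- A sparse sum has few zeros on the full group of roots of unity of prime order. -/
def StmtSR : Prop :=
  ∀ (N : ℕ) (ε : ℝ), 0 < ε → ∃ r₀ : ℕ, ∀ (r : ℕ) [Fact r.Prime], r₀ ≤ r →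
    ∀ (K : Type) [Field K] (γ : K), IsPrimitiveRoot γ r →
    ∀ (ι : Type) (T : Finset ι) (e : ι → ZMod r) (c : ι → K), #T ≤ N → Set.InjOn e T →
      (∃ i ∈ T, c i ≠ 0) →
      (#(univ.filter fun z : ZMod r => ∑ i ∈ T, c i * γ ^ (e i * z).val = 0) : ℝ) ≤ ε * r

/-- `P` holds for all sequences in `S` outside sets of density at most `c`. -/
def Most (𝒰 : Ultrafilter ℕ) {Ω : ℕ → Type} (S : ∀ n, Finset (Ω n)) (c : ℝ)
    (P : (∀ n, Ω n) → Prop) : Prop :=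
  ∃ Bad : ∀ n, Finset (Ω n), (∀ᶠ n in (𝒰 : Filter ℕ), (#(Bad n) : ℝ) ≤ c * #(S n)) ∧
    ∀ u : ∀ n, Ω n, (∀ n, u n ∈ S n) → (∀ᶠ n in (𝒰 : Filter ℕ), u n ∉ Bad n) → P u

/-- The calculus of `Most`. -/
def StmtMost : Prop :=
  ∀ (𝒰 : Ultrafilter ℕ) (Ω : ℕ → Type) (S : ∀ n, Finset (Ω n)), (𝒰 : Filter ℕ) ≤ atTop →
    (∀ (c c' : ℝ) (P Q : (∀ n, Ω n) → Prop), c ≤ c' →
      (∀ u, (∀ n, u n ∈ S n) → P u → Q u) → Most 𝒰 S c P → Most 𝒰 S c' Q) ∧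
    (∀ (c c' : ℝ) (P Q : (∀ n, Ω n) → Prop), Most 𝒰 S c P → Most 𝒰 S c' Q →
      Most 𝒰 S (c + c') fun u => P u ∧ Q u) ∧
    (∀ (ι : Type) [Fintype ι] (c : ℝ) (P : ι → (∀ n, Ω n) → Prop), (∀ i, Most 𝒰 S c (P i)) →
      Most 𝒰 S (Fintype.card ι * c) fun u => ∀ i, P i u) ∧
    (∀ (ι : Type) [Countable ι] (P : ι → (∀ n, Ω n) → Prop),
      (∀ i, ∀ ε : ℝ, 0 < ε → Most 𝒰 S ε (P i)) → ∀ ε : ℝ, 0 < ε → Most 𝒰 S ε fun u => ∀ i, P i u) ∧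
    (∀ (c : ℝ) (P : (∀ n, Ω n) → Prop), (∀ n, (S n).Nonempty) → c < 1 → Most 𝒰 S c P →
      ∃ u, (∀ n, u n ∈ S n) ∧ P u) ∧
    ∀ (c : ℝ) (P : (∀ n, Ω n) → Prop) (f : ∀ n, Ω n → Ω n), (∀ n, Function.Injective (f n)) →
      (∀ n, ∀ x ∈ S n, f n x ∈ S n) → Most 𝒰 S c P → Most 𝒰 S c fun u => P fun n => f n (u n)

/-- Transcendence rank of a set. -/
noncomputable def trk (R : Type) {K : Type} [Field R] [Field K] [Algebra R K] (s : Set K) : ℕ∞ :=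
  (AlgebraicIndependent.matroid R K).eRk s

/-- The rank inequalities. -/
def StmtAlg : Prop :=
  ∀ (R K : Type) [Field R] [Field K] [Algebra R K],
    (∀ s t : Set K, s ⊆ t → trk R s ≤ trk R t) ∧
    (∀ (J : Type) [Fintype J] (x : J → K), ¬ AlgebraicIndependent R x →
      trk R (Set.range x) + 1 ≤ Fintype.card J) ∧
    ∀ (k m : ℕ) (I : Type) [Fintype I] (x : Fin k ⊕ Fin k → I → K) (y : I → K), 1 ≤ k →
      AlgebraicIndependent R y → (∀ j, y j = ∏ i, x (Sum.inl i) j) →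
      (∀ j, y j = ∏ i, x (Sum.inr i) j) →
      (∀ i, trk R (Set.range (x i)) + m ≤ Fintype.card I) →
      trk R (⋃ i, Set.range (x i)) + (2 * k * m : ℕ) ≤ ((2 * k - 1) * Fintype.card I : ℕ)

open Classical in
/-- A sparse sum that is not identically zero is nonzero on a positive part of every large
multiplicative subgroup of exponents, over every field. -/
def StmtNT : Prop :=
  ∀ (η : ℝ), 0 < η → ∀ q : ℕ, ∃ c : ℝ, 0 < c ∧ ∃ r₀ : ℕ, ∀ (r : ℕ) [Fact r.Prime], r₀ ≤ r →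
    ∀ (K : Type) [Field K] (γ : K), IsPrimitiveRoot γ r → ∀ U : Finset (ZMod r), Grp U →
    (r : ℝ) ^ η ≤ #U → ∀ (a : Fin q → ZMod r) (β : Fin q → K),
      (∃ z, ∑ l, β l * γ ^ (a l * z).val ≠ 0) →
      c * #U ≤ #(U.filter fun u => ∑ l, β l * γ ^ (a l * u).val ≠ 0)

/-- The rank of a sum of monomial matrices. -/
def StmtMono : Prop :=
  ∀ (L V ι : Type) [Field L] [AddCommGroup V] [Module L V] [Fintype ι] (b : Module.Basis ι L V)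
    (M : V →ₗ[L] V) (q : ℕ) (π : Fin q → ι → ι) (l₀ : Fin q) (X : Finset ι),
    (∀ l, Function.Injective (π l)) → (∀ x y, b.repr (M (b x)) y ≠ 0 → ∃ l, y = π l x) →
    (∀ x ∈ X, b.repr (M (b x)) (π l₀ x) ≠ 0) →
    #X ≤ (2 * q + 1) * Module.finrank L (LinearMap.range M)

/-- The irreducible representations are monomial. -/
def StmtStruct : Prop :=
  ∀ (L G V : Type) [Field L] [IsAlgClosed L] [Group G] [Finite G] [AddCommGroup V] [Module L V]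
    [FiniteDimensional L V] (σ : Representation L G V) (A : Subgroup G) (r : ℕ) [Fact r.Prime],
    A.Normal → Nat.card A = r →
    (∀ g : G, (∀ a ∈ A, g * a = a * g) → g ∈ A ⊔ Subgroup.center G) →
    (∀ W : Submodule L V, (∀ g, ∀ v ∈ W, σ g v ∈ W) → W = ⊥ ∨ W = ⊤) →
    Module.finrank L V ≤ 1 ∨
    ∃ (γ : L) (U : Finset (ZMod r)) (b : Module.Basis U L V) (u : G → ZMod r) (π : G → U → U)
      (κ : G → U → L), IsPrimitiveRoot γ r ∧ Grp U ∧ (∀ g, u g ≠ 0) ∧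
      (∀ g x, (π g x : ZMod r) = u g * x) ∧ (∀ g x, σ g (b x) = κ g x • b (π g x)) ∧
      (∀ g x, κ g x ≠ 0) ∧
      ∀ g g', u g = u g' → ∃ (e : ZMod r) (ω : L), ∀ x : U,
        κ g' x = ω * γ ^ (e * (x : ZMod r)).val * κ g x

/-- The rank bound over algebraically closed fields. -/
def StmtRep : Prop :=
  ∀ (δ : ℝ), 0 < δ → ∀ q : ℕ, ∃ c : ℝ, 0 < c ∧
    ∀ (L G V : Type) [Field L] [IsAlgClosed L] [Group G] [Finite G] [AddCommGroup V] [Module L V]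
      [FiniteDimensional L V] (σ : Representation L G V) (A : Subgroup G),
      A.Normal → (Nat.card A).Prime →
      (∀ g : G, (∀ a ∈ A, g * a = a * g) → g ∈ A ⊔ Subgroup.center G) →
      (∀ W : Submodule L V, (∀ g, ∀ v ∈ W, σ g v ∈ W) → W = ⊥ ∨ W = ⊤) →
      ∀ (h : Fin q → G) (β : Fin q → L), ∑ l, β l • σ (h l) ≠ 0 →
        (Module.finrank L V : ℝ) ≤
          c * (Nat.card G : ℝ) ^ δ * Module.finrank L (LinearMap.range (∑ l, β l • σ (h l)))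

end Pool.Agent.Work.MP_11a08a_al.Cp
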