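import Pool.Agent.Work.MP_11a08a_al.Cp.Defs

/-! The irreducible representations are monomial. -/

set_option autoImplicit false

open Finset

namespace Pool.Agent.Work.MP_11a08a_al.Cp

theorem struct_pow {M : Type} [Monoid M] {r : ℕ} [Fact r.Prime] {z : M} (hz : z ^ r = 1) (n : ℕ) :
    z ^ ((n : ZMod r)).val = z ^ n := by
  rw [ZMod.val_natCast]
  conv_rhs => rw [← Nat.mod_add_div n r, pow_add, pow_mul, hz, one_pow, mul_one]

theorem struct_pow_mul {M : Type} [Monoid M] {r : ℕ} [Fact r.Prime] {z : M} (hz : z ^ r = 1)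
    (x y : ZMod r) : z ^ (x * y).val = (z ^ x.val) ^ y.val := by
  rw [← pow_mul, ← struct_pow hz (x.val * y.val)]
  simp

theorem struct_gen {G : Type} [Group G] [Finite G] (A : Subgroup G) (r : ℕ) [Fact r.Prime]
    (hN : A.Normal) (hA : Nat.card A = r) :
    ∃ (a : G) (u : G →* ZMod r), a ^ r = 1 ∧ (∀ x ∈ A, ∃ e : ZMod r, x = a ^ e.val) ∧
      ∀ g, a * g = g * a ^ (u g).val := by
  have : IsCyclic A := isCyclic_of_prime_card hA
  obtain ⟨a0, ha0⟩ := IsCyclic.exists_generator (α := A)
  have ho : orderOf a0 = r := by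
    rw [← hA]; exact orderOf_eq_card_of_forall_mem_zpowers ha0
  have ho' : orderOf (a0 : G) = r := by rw [Subgroup.orderOf_coe, ho]
  have har : (a0 : G) ^ r = 1 := by rw [← ho']; exact pow_orderOf_eq_one _
  have hall : ∀ x ∈ A, ∃ e : ZMod r, x = (a0 : G) ^ e.val := by
    intro x hx
    obtain ⟨n, hn⟩ := (mem_powers_iff_mem_zpowers.2 (ha0 ⟨x, hx⟩) : (⟨x, hx⟩ : A) ∈ Submonoid.powers a0)
    refine ⟨(n : ZMod r), ?_⟩
    rw [struct_pow har]
    have := congrArg (fun y : A => (y : G)) hn
    simpa using this.symm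
  have hinj : ∀ x y : ZMod r, (a0 : G) ^ x.val = (a0 : G) ^ y.val → x = y := by
    intro x y h
    apply ZMod.val_injective
    exact pow_injOn_Iio_orderOf (by simpa [ho'] using ZMod.val_lt x)
      (by simpa [ho'] using ZMod.val_lt y) h
  have hconj : ∀ g : G, ∃ e : ZMod r, g⁻¹ * a0 * g = (a0 : G) ^ e.val := fun g =>
    hall _ (by simpa using hN.conj_mem _ a0.2 g⁻¹)
  choose u hu using hconj
  have h1 : u 1 = 1 := by
    apply hinj
    rw [← hu, ZMod.val_one]; simp
  have hmul : ∀ g h, u (g * h) = u g * u h := by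
    intro g h
    apply hinj
    rw [← hu, mul_comm (u g), struct_pow_mul har, ← hu h]
    have : (h⁻¹ * (a0 : G) * h) ^ (u g).val = h⁻¹ * (a0 : G) ^ (u g).val * h := by
      have := conj_pow (a := h⁻¹) (b := (a0 : G)) (i := (u g).val)
      simpa using this
    rw [this, ← hu g]; group
  refine ⟨a0, ⟨⟨u, h1⟩, hmul⟩, har, hall, fun g => ?_⟩
  show (a0 : G) * g = g * (a0 : G) ^ (u g).val
  rw [← hu g]; group

theorem struct : StmtStruct := by
  intro L G V _ _ _ _ _ _ _ σ A r _ hN hA hC hirr
  classical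
  rcases subsingleton_or_nontrivial V with hV | hV
  · left; rw [Module.finrank_zero_of_subsingleton]; exact zero_le_one
  obtain ⟨a, u, har, hall, hu⟩ := struct_gen A r hN hA
  have hσ : ∀ g h w, σ (g * h) w = σ g (σ h w) := fun g h w => by rw [map_mul]; rfl
  have hσ0 : ∀ g w, σ g w = 0 → w = 0 := by
    intro g w h
    have := hσ g⁻¹ g w
    rw [h] at this
    simpa using this
  have hu0 : ∀ g, u g ≠ 0 := by
    intro g h
    have := map_mul u g g⁻¹
    rw [h] at this
    simp at this
  -- central elements are scalars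
  have hcen : ∀ z ∈ Subgroup.center G, ∃ ω : L, ∀ w, σ z w = ω • w := by
    intro z hz
    obtain ⟨ω, hω⟩ := Module.End.exists_eigenvalue (σ z)
    refine ⟨ω, fun w => ?_⟩
    rcases hirr (Module.End.eigenspace (σ z) ω) (fun g v hv => by
      rw [Module.End.mem_eigenspace_iff] at hv ⊢
      rw [← hσ, ← (Subgroup.mem_center_iff.1 hz g), hσ, hv, map_smul]) with h | h
    · exact absurd h hω
    · exact Module.End.mem_eigenspace_iff.1 (h ▸ Submodule.mem_top)
  have hpow : ∀ (c : L) (w : V), σ a w = c • w → ∀ n : ℕ, σ (a ^ n) w = c ^ n • w := by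
    intro c w h n
    induction n with
    | zero => simp
    | succ n ih => rw [pow_succ, hσ, h, map_smul, ih, smul_smul, pow_succ, mul_comm]
  -- elements with `u c = 1`
  have hker : ∀ c, u c = 1 → ∃ (e : ZMod r) (ω : L), ∀ (t : L) (w : V), σ a w = t • w →
      σ c w = (ω * t ^ e.val) • w := by
    intro c hc
    have hca : a * c = c * a := by rw [hu c, hc, ZMod.val_one, pow_one]
    have hmem : c ∈ A ⊔ Subgroup.center G := by
      refine hC c fun x hx => ?_
      obtain ⟨e, rfl⟩ := hall x hx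
      exact ((Commute.pow_left (hca : Commute a c) _).eq).symm
    have hmem' : c ∈ ((A ⊔ Subgroup.center G : Subgroup G) : Set G) := hmem
    rw [Subgroup.mul_normal] at hmem'
    obtain ⟨x, hx, z, hz, rfl⟩ := hmem'
    obtain ⟨e, rfl⟩ := hall x hx
    obtain ⟨ω, hω⟩ := hcen z hz
    refine ⟨e, ω, fun t w hw => ?_⟩
    show σ (a ^ e.val * z) w = _
    rw [hσ, hω, map_smul, hpow t w hw, smul_smul]
  have hmove : ∀ (t : L) (w : V) (g : G), σ a w = t • w →
      σ a (σ g w) = t ^ (u g).val • σ g w := by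
    intro t w g hw
    rw [← hσ, hu g, hσ, hpow t w hw, map_smul]
  obtain ⟨ζ, hζ⟩ := Module.End.exists_eigenvalue (σ a)
  obtain ⟨v, hv⟩ := hζ.exists_hasEigenvector
  have hv0 : v ≠ 0 := hv.2
  have hva : σ a v = ζ • v := hv.apply_eq_smul
  have hζr : ζ ^ r = 1 := by
    have := hpow ζ v hva r
    rw [har, map_one, Module.End.one_apply] at this
    have h2 : (ζ ^ r - 1) • v = 0 := by rw [sub_smul, one_smul, ← this, sub_self]
    exact sub_eq_zero.1 ((smul_eq_zero.1 h2).resolve_right hv0)
  by_cases hζ1 : ζ = 1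
  · left
    subst hζ1
    have hT : ∀ w, σ a w = (1 : L) • w := by
      intro w
      rcases hirr (Module.End.eigenspace (σ a) 1) (fun g v hv => by
        rw [Module.End.mem_eigenspace_iff] at hv ⊢
        rw [hmove 1 v g hv, one_pow]) with h | h
      · exact absurd h hζ
      · exact Module.End.mem_eigenspace_iff.1 (h ▸ Submodule.mem_top)
    obtain ⟨⟨_, g0, rfl⟩, hg0⟩ := IsCyclic.exists_generator (α := u.toHomUnits.range)
    obtain ⟨μ, hμ⟩ := Module.End.exists_eigenvalue (σ g0)
    obtain ⟨v', hv'⟩ := hμ.exists_hasEigenvector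
    have hp : ∀ n : ℕ, σ (g0 ^ n) v' = μ ^ n • v' := by
      intro n
      induction n with
      | zero => simp
      | succ n ih =>
        rw [pow_succ, hσ, hv'.apply_eq_smul, map_smul, ih, smul_smul, pow_succ, mul_comm]
    have hinv : ∀ g, σ g v' ∈ Submodule.span L {v'} := by
      intro g
      obtain ⟨n, hn⟩ := (mem_powers_iff_mem_zpowers.2 (hg0 ⟨_, g, rfl⟩) :
        (⟨_, g, rfl⟩ : u.toHomUnits.range) ∈ Submonoid.powers _)
      have hn' : u (g0 ^ n) = u g := by
        have := congrArg (fun y : u.toHomUnits.range => ((y : (ZMod r)ˣ) : ZMod r)) hn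
        simpa using this
      have hc : u ((g0 ^ n)⁻¹ * g) = 1 := by
        rw [map_mul, ← hn', ← map_mul, inv_mul_cancel, map_one]
      obtain ⟨e, ω, he⟩ := hker _ hc
      have : σ g v' = σ (g0 ^ n) (σ ((g0 ^ n)⁻¹ * g) v') := by rw [← hσ]; congr 1; group
      rw [this, he 1 v' (hT v'), map_smul, hp]
      exact Submodule.smul_mem _ _ (Submodule.smul_mem _ _ (Submodule.mem_span_singleton_self _))
    rcases hirr (Submodule.span L {v'}) (fun g w hw => by
      obtain ⟨c, rfl⟩ := Submodule.mem_span_singleton.1 hw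
      rw [map_smul]; exact Submodule.smul_mem _ _ (hinv g)) with h | h
    · exact absurd (Submodule.span_singleton_eq_bot.1 h) hv'.2
    · rw [← finrank_top, ← h, finrank_span_singleton hv'.2]
  right
  have hprim : IsPrimitiveRoot ζ r := by
    have : orderOf ζ = r := orderOf_eq_prime hζr hζ1
    rw [← this]; exact IsPrimitiveRoot.orderOf ζ
  have := Fintype.ofFinite G
  set U : Finset (ZMod r) := univ.image u with hU
  have hUm : ∀ g, u g ∈ U := fun g => mem_image_of_mem _ (mem_univ g)
  have hex : ∀ x : U, ∃ g, u g = x := fun x => by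
    obtain ⟨g, -, hg⟩ := mem_image.1 x.2
    exact ⟨g, hg⟩
  choose s hs using hex
  let b : U → V := fun x => σ (s x) v
  have hb0 : ∀ x, b x ≠ 0 := fun x h => hv0 (hσ0 _ _ h)
  have hba : ∀ x, σ a (b x) = ζ ^ (x : ZMod r).val • b x := fun x => by
    have := hmove ζ v (s x) hva
    rwa [hs] at this
  let π : G → U → U := fun g x => ⟨u g * x, by rw [← hs x, ← map_mul]; exact hUm _⟩
  have hκ : ∀ g x, ∃ k : L, σ g (b x) = k • b (π g x) := by
    intro g x
    have hc : u ((s (π g x))⁻¹ * (g * s x)) = 1 := by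
      have : u (g * s x) = u (s (π g x)) := by rw [hs, map_mul, hs]
      rw [map_mul, this, ← map_mul, inv_mul_cancel, map_one]
    obtain ⟨e, ω, he⟩ := hker _ hc
    refine ⟨ω * ζ ^ e.val, ?_⟩
    have : σ g (b x) = σ (s (π g x)) (σ ((s (π g x))⁻¹ * (g * s x)) v) := by
      show σ g (σ (s x) v) = _
      rw [← hσ, ← hσ]; congr 1; group
    rw [this, he ζ v hva, map_smul]
  choose κ hκ using hκ
  have hli : LinearIndependent L b := by
    refine Module.End.eigenvectors_linearIndependent' (σ a) (fun x : U => ζ ^ (x : ZMod r).val) ?_ b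
      fun x => ⟨Module.End.mem_eigenspace_iff.2 (hba x), hb0 x⟩
    intro x y h
    apply Subtype.ext
    apply ZMod.val_injective
    exact hprim.pow_inj (ZMod.val_lt _) (ZMod.val_lt _) h
  have hspan : ⊤ ≤ Submodule.span L (Set.range b) := by
    rcases hirr (Submodule.span L (Set.range b)) (fun g w hw => by
      induction hw using Submodule.span_induction with
      | mem w hw =>
        obtain ⟨x, rfl⟩ := hw
        rw [hκ]; exact Submodule.smul_mem _ _ (Submodule.subset_span ⟨_, rfl⟩)
      | zero => simp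
      | add x y _ _ hx hy => rw [map_add]; exact Submodule.add_mem _ hx hy
      | smul c x _ hx => rw [map_smul]; exact Submodule.smul_mem _ _ hx) with h | h
    · exfalso
      have : b ⟨u 1, hUm 1⟩ ∈ Submodule.span L (Set.range b) := Submodule.subset_span ⟨_, rfl⟩
      rw [h] at this
      exact hb0 _ (by simpa using this)
    · exact h.ge
  refine ⟨ζ, U, Module.Basis.mk hli hspan, u, π, κ, hprim, ⟨?_, ?_, ?_, ?_⟩, hu0, fun _ _ => rfl,
    ?_, ?_, ?_⟩
  · intro x hx; have := hs ⟨x, hx⟩; simp only at this; rw [← this]; exact hu0 _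
  · rw [← map_one u]; exact hUm 1
  · intro x hx y hy
    have h1 := hs ⟨x, hx⟩; have h2 := hs ⟨y, hy⟩
    simp only at h1 h2
    rw [← h1, ← h2, ← map_mul]; exact hUm _
  · intro x hx
    obtain ⟨g, -, rfl⟩ := mem_image.1 hx
    have : (u g)⁻¹ = u g⁻¹ := by
      apply inv_eq_of_mul_eq_one_right
      rw [← map_mul]; simp
    rw [this]; exact hUm _
  · intro g x; simpa using hκ g x
  · intro g x h
    have := hκ g x
    rw [h, zero_smul] at this
    exact hb0 x (hσ0 _ _ this)
  · intro g g' hgg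
    have hc : u (g⁻¹ * g') = 1 := by rw [map_mul, ← hgg, ← map_mul, inv_mul_cancel, map_one]
    obtain ⟨e, ω, he⟩ := hker _ hc
    refine ⟨e, ω, fun x => ?_⟩
    have hπ : π g' x = π g x := Subtype.ext (by show u g' * _ = u g * _; rw [hgg])
    have h1 : σ g' (b x) = σ g (σ (g⁻¹ * g') (b x)) := by
      rw [← hσ g (g⁻¹ * g') (b x), mul_inv_cancel_left]
    rw [he _ _ (hba x), map_smul, hκ, hκ, hπ, smul_smul] at h1
    have h2 := smul_left_injective L (hb0 (π g x)) h1
    rw [h2, mul_comm e, struct_pow_mul hζr]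

end Pool.Agent.Work.MP_11a08a_al.Cp
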