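import Pool.Agent.Work.MP_11a08a_al.Cp.Main
import Pool.Agent.Work.MP_11a08a_al.Cp.Struct
import Pool.Agent.Work.MP_11a08a_al.Sol.Main

/-!
The rank bound over every field.
-/

set_option autoImplicit false

open Finset Module

namespace Pool.Agent.Work.MP_11a08a_al.Cp

theorem final (ε : ℝ) (hε : 0 < ε) (q : ℕ) : ∃ N : ℕ, ∀ n > N,
    ∀ (F : Type) [Field F] (G : Type) [Group G] [Finite G] (A : Subgroup G),
      A.Normal → (Nat.card A).Prime →
      (∀ g : G, (∀ a ∈ A, g * a = a * g) → g ∈ A ⊔ Subgroup.center G) →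
      ∀ ρ : Representation F G (Fin n → F), ρ.IsIrreducible → (Nat.card G : ℝ) ^ ε ≤ n →
      ∀ (h : Fin q → G) (α : Fin q → F), ∑ l, α l • ρ (h l) ≠ 0 →
        (n : ℝ) ^ (1 - ε) ≤ finrank F (LinearMap.range (∑ l, α l • ρ (h l))) := by
  obtain ⟨c, hc, H⟩ := rep nt_all mono struct (ε ^ 2 / 2) (by positivity) q
  obtain ⟨N, hN⟩ := Sol.fin_num ε hε c hc
  refine ⟨N, fun n hn F _ G _ _ A hA hp hC ρ hirr hg h α hne => ?_⟩
  have := Fintype.ofFinite G
  refine hN n hn (Nat.card G) _ hg ?_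
  exact Sol.fin_step Sol.ideal Sol.change ρ α h hirr hne (AlgebraicClosure F)
    (Or.inl ⟨algebraMap _ _⟩) (by positivity)
    fun β V _ _ _ σ a b => H _ G V σ A hA hp hC a h β b

end Pool.Agent.Work.MP_11a08a_al.Cp
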