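import Pool.Agent.Work.MP_11a08a_al.Cp.Defs

/-!
A dense part of an invariant set has a small sum set with many of its dilates.
-/

set_option autoImplicit false

open Finset
open scoped Pointwise

namespace Pool.Agent.Work.MP_11a08a_al.Cp

section

variable {r : ℕ} [Fact r.Prime]

lemma inv_card_smul {u : ZMod r} (hu : u ≠ 0) (S : Finset (ZMod r)) : #(u • S) = #S :=
  Finset.card_image_of_injective _ (fun a b h => by
    simpa [smul_eq_mul, hu] using h)

lemma inv_mem_smul {u : ZMod r} (hu : u ≠ 0) (S : Finset (ZMod r)) (x : ZMod r) :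
    x ∈ u • S ↔ u⁻¹ * x ∈ S := by
  rw [Finset.mem_smul_finset]
  constructor
  · rintro ⟨y, hy, rfl⟩
    rwa [smul_eq_mul, ← mul_assoc, inv_mul_cancel₀ hu, one_mul]
  · intro h
    exact ⟨_, h, by rw [smul_eq_mul, ← mul_assoc, mul_inv_cancel₀ hu, one_mul]⟩

lemma inv_inter {u v : ZMod r} (hu : u ≠ 0) (hv : v ≠ 0) (S : Finset (ZMod r)) :
    #(u • S ∩ v • S) = #(S ∩ (u⁻¹ * v) • S) := by
  rw [← inv_card_smul hu (S ∩ (u⁻¹ * v) • S)]
  congr 1
  ext x
  have h : u⁻¹ * v ≠ 0 := mul_ne_zero (inv_ne_zero hu) hv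
  rw [mem_inter, inv_mem_smul hu, inv_mem_smul hv, inv_mem_smul hu, mem_inter, inv_mem_smul h]
  have : (u⁻¹ * v)⁻¹ * (u⁻¹ * x) = v⁻¹ * x := by field_simp
  rw [this]

lemma inv_reindex {U : Finset (ZMod r)} (hU : Grp U) {u : ZMod r} (hu : u ∈ U) (g : ZMod r → ℝ) :
    ∑ v ∈ U, g (u⁻¹ * v) = ∑ w ∈ U, g w := by
  have hu0 := hU.ne u hu
  refine Finset.sum_nbij' (fun v => u⁻¹ * v) (fun w => u * w) ?_ ?_ ?_ ?_ ?_
  · intro v hv
    exact hU.mul _ (hU.inv u hu) _ hv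
  · intro w hw
    exact hU.mul _ hu _ hw
  · intro v _
    show u * (u⁻¹ * v) = v
    rw [← mul_assoc, mul_inv_cancel₀ hu0, one_mul]
  · intro w _
    show u⁻¹ * (u * w) = w
    rw [← mul_assoc, inv_mul_cancel₀ hu0, one_mul]
  · intro v _
    rfl

lemma inv_cs {U A A' : Finset (ZMod r)} (hU : Grp U) (hA : ∀ u ∈ U, ∀ a ∈ A, u * a ∈ A)
    (hsub : A' ⊆ A) :
    ((#U : ℝ) * #A') ^ 2 ≤ #A * (#U * ∑ w ∈ U, (#(A' ∩ w • A') : ℝ)) := by
  have hin : ∀ u ∈ U, u • A' ⊆ A := by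
    intro u hu x hx
    obtain ⟨y, hy, rfl⟩ := Finset.mem_smul_finset.1 hx
    exact hA u hu y (hsub hy)
  set f : ZMod r → ℝ := fun x => ∑ u ∈ U, if x ∈ u • A' then (1 : ℝ) else 0 with hf
  have h1 : ∑ x ∈ A, f x = (#U : ℝ) * #A' := by
    rw [hf, Finset.sum_comm]
    have : ∀ u ∈ U, ∑ x ∈ A, (if x ∈ u • A' then (1 : ℝ) else 0) = #A' := by
      intro u hu
      rw [Finset.sum_boole, Finset.filter_mem_eq_inter, Finset.inter_eq_right.2 (hin u hu),
        inv_card_smul (hU.ne u hu)]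
    rw [Finset.sum_congr rfl this, Finset.sum_const, nsmul_eq_mul]
  have h2 : ∑ x ∈ A, f x ^ 2 = #U * ∑ w ∈ U, (#(A' ∩ w • A') : ℝ) := by
    have e1 : ∀ x ∈ A, f x ^ 2 =
        ∑ u ∈ U, ∑ v ∈ U, if x ∈ u • A' ∩ v • A' then (1 : ℝ) else 0 := by
      intro x _
      rw [sq, hf, Finset.sum_mul_sum]
      refine Finset.sum_congr rfl fun u _ => Finset.sum_congr rfl fun v _ => ?_
      by_cases h1 : x ∈ u • A' <;> by_cases h2 : x ∈ v • A' <;> simp [h1, h2]
    rw [Finset.sum_congr rfl e1, Finset.sum_comm]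
    have e2 : ∀ u ∈ U, ∑ x ∈ A, ∑ v ∈ U, (if x ∈ u • A' ∩ v • A' then (1 : ℝ) else 0) =
        ∑ w ∈ U, (#(A' ∩ w • A') : ℝ) := by
      intro u hu
      rw [Finset.sum_comm, ← inv_reindex hU hu (fun w => (#(A' ∩ w • A') : ℝ))]
      refine Finset.sum_congr rfl fun v hv => ?_
      rw [Finset.sum_boole, Finset.filter_mem_eq_inter,
        Finset.inter_eq_right.2 (Finset.inter_subset_left.trans (hin u hu)),
        inv_inter (hU.ne u hu) (hU.ne v hv)]
    rw [Finset.sum_congr rfl e2, Finset.sum_const, nsmul_eq_mul]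
  rw [← h1, ← h2]
  exact sq_sum_le_card_mul_sum_sq

lemma inv_double {A' : Finset (ZMod r)} (hne : A'.Nonempty) {D : ℝ}
    (hD : (#(A' - A') : ℝ) ≤ D * #A') : (#(A' + A') : ℝ) ≤ D ^ 2 * #A' := by
  have h := Finset.pluennecke_ruzsa_inequality_nsmul_sub hne A' 2
  rw [two_nsmul] at h
  have hpos : (0 : ℝ) < #A' := by exact_mod_cast hne.card_pos
  have h' : (#(A' + A') : ℝ) ≤ ((#(A' - A') : ℝ) / #A') ^ 2 * #A' := by
    have := (NNRat.cast_le (K := ℝ)).2 h
    push_cast at this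
    exact this
  refine h'.trans ?_
  have : (#(A' - A') : ℝ) / #A' ≤ D := by rwa [div_le_iff₀ hpos]
  gcongr

lemma inv_tri {u : ZMod r} (hu : u ≠ 0) (S : Finset (ZMod r)) :
    #(S + u • S) * #(S ∩ u • S) ≤ #(S + S) * #(S + S) := by
  refine (Finset.ruzsa_triangle_inequality_add_add_add S (S ∩ u • S) (u • S)).trans ?_
  refine Nat.mul_le_mul (Finset.card_le_card ?_) ?_
  · exact Finset.add_subset_add_left Finset.inter_subset_left
  · rw [← inv_card_smul hu (S + S), smul_add]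
    exact Finset.card_le_card (Finset.add_subset_add_right Finset.inter_subset_right)

end

theorem inv_facts : StmtInv := by
  intro r _ U A A' ρ D hU hA hsub hne hρ hρA hD hdiff
  have hpos : (0 : ℝ) < #A' := by exact_mod_cast hne.card_pos
  have hUpos : (0 : ℝ) < #U := by exact_mod_cast Finset.card_pos.2 ⟨1, hU.one⟩
  set S : ℝ := ∑ w ∈ U, (#(A' ∩ w • A') : ℝ) with hS
  have hS0 : 0 ≤ S := Finset.sum_nonneg fun _ _ => Nat.cast_nonneg _
  have hcs := inv_cs hU hA hsub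
  rw [← hS] at hcs
  have hlow : ρ * #U * #A' ≤ S := by
    have h1 : ρ * ((#U : ℝ) * #A') ^ 2 ≤ #A' * (#U * S) := by
      calc ρ * ((#U : ℝ) * #A') ^ 2 ≤ ρ * (#A * (#U * S)) := by gcongr
        _ = (ρ * #A) * (#U * S) := by ring
        _ ≤ #A' * (#U * S) := by gcongr
    have h2 : ((#U : ℝ) * #A') * (ρ * #U * #A') ≤ ((#U : ℝ) * #A') * S := by
      calc ((#U : ℝ) * #A') * (ρ * #U * #A') = ρ * ((#U : ℝ) * #A') ^ 2 := by ring
        _ ≤ #A' * (#U * S) := h1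
        _ = ((#U : ℝ) * #A') * S := by ring
    exact le_of_mul_le_mul_left h2 (mul_pos hUpos hpos)
  refine ⟨U.filter fun u => ρ * #A' / 2 ≤ (#(A' ∩ u • A') : ℝ), Finset.filter_subset _ _, ?_, ?_⟩
  · set B := U.filter fun u => ρ * #A' / 2 ≤ (#(A' ∩ u • A') : ℝ) with hB
    have hup : S ≤ #B * #A' + #U * (ρ * #A' / 2) := by
      have : ∀ w ∈ U, (#(A' ∩ w • A') : ℝ) ≤
          (if ρ * #A' / 2 ≤ (#(A' ∩ w • A') : ℝ) then (1 : ℝ) else 0) * #A' + ρ * #A' / 2 := by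
        intro w _
        have hle : (#(A' ∩ w • A') : ℝ) ≤ #A' := by
          exact_mod_cast Finset.card_le_card Finset.inter_subset_left
        have h0 : 0 ≤ ρ * #A' / 2 := by positivity
        split_ifs with h
        · linarith
        · have := not_le.1 h
          linarith
      refine (Finset.sum_le_sum this).trans (le_of_eq ?_)
      rw [Finset.sum_add_distrib, ← Finset.sum_mul, Finset.sum_boole, Finset.sum_const,
        nsmul_eq_mul]
    have h3 : (ρ / 2 * #U) * #A' ≤ #B * #A' := by nlinarith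
    exact le_of_mul_le_mul_right h3 hpos
  · intro u hu
    obtain ⟨huU, hbig⟩ := Finset.mem_filter.1 hu
    have ht : (#(A' + u • A') : ℝ) * #(A' ∩ u • A') ≤ #(A' + A') * #(A' + A') := by
      exact_mod_cast inv_tri (hU.ne u huU) A'
    have hd := inv_double hne hdiff
    have h4 : (#(A' + u • A') : ℝ) * (ρ * #A' / 2) ≤ (D ^ 2 * #A') * (D ^ 2 * #A') := by
      calc (#(A' + u • A') : ℝ) * (ρ * #A' / 2) ≤ #(A' + u • A') * #(A' ∩ u • A') := by gcongr
        _ ≤ #(A' + A') * #(A' + A') := ht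
        _ ≤ (D ^ 2 * #A') * (D ^ 2 * #A') := by gcongr
    have h5 : (#(A' + u • A') : ℝ) * (ρ * #A' / 2) ≤ (2 * D ^ 4 / ρ * #A') * (ρ * #A' / 2) := by
      refine h4.trans (le_of_eq ?_)
      field_simp
    exact le_of_mul_le_mul_right h5 (by positivity)

end Pool.Agent.Work.MP_11a08a_al.Cp
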