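import Pool.Agent.Work.MP_11a08a_al.Cp.Defs

set_option autoImplicit false

open Finset

namespace Pool.Agent.Work.MP_11a08a_al.Cp

/-- At most `q` points are sent to one of `q` given values by injective maps. -/
theorem mono_card {ι : Type} [DecidableEq ι] {q : ℕ} (X : Finset ι) (f : Fin q → ι → ι)
    (hf : ∀ l, Function.Injective (f l)) (y : Fin q → ι) :
    #(X.filter fun x => ∃ l, f l x = y l) ≤ q := by
  have h : (X.filter fun x => ∃ l, f l x = y l) ⊆
      univ.biUnion fun l => X.filter fun x => f l x = y l := fun x hx => by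
    obtain ⟨h1, l, h2⟩ := mem_filter.1 hx
    exact mem_biUnion.2 ⟨l, mem_univ _, mem_filter.2 ⟨h1, h2⟩⟩
  refine (card_le_card h).trans ((card_biUnion_le_card_mul _ _ 1 fun l _ => ?_).trans (by simp))
  exact card_le_one.2 fun a ha b hb => hf l ((mem_filter.1 ha).2.trans (mem_filter.1 hb).2.symm)

/-- Greedy choice of a subfamily without conflicts. -/
theorem mono_greedy {ι : Type} {q : ℕ} (π : Fin q → ι → ι) (l₀ : Fin q)
    (hπ : ∀ l, Function.Injective (π l)) (X : Finset ι) :
    ∃ I ⊆ X, #X ≤ (2 * q + 1) * #I ∧ ∀ x ∈ I, ∀ x' ∈ I, x ≠ x' → ∀ l, π l₀ x ≠ π l x' := by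
  classical
  induction X using Finset.strongInduction with
  | H X ih =>
  rcases X.eq_empty_or_nonempty with rfl | ⟨x, hx⟩
  · exact ⟨∅, Subset.rfl, by simp, by simp⟩
  let C := (X.filter fun z => ∃ l, π l z = π l₀ x) ∪ X.filter fun z => ∃ l, π l₀ z = π l x
  have hC : #C ≤ 2 * q := (card_union_le _ _).trans (by
    have a := mono_card X π hπ fun _ => π l₀ x
    have b := mono_card X (fun _ : Fin q => π l₀) (fun _ => hπ l₀) fun l => π l x
    omega)
  have hxC : x ∈ C := mem_union_left _ (mem_filter.2 ⟨hx, l₀, rfl⟩)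
  obtain ⟨I, h1, h2, h3⟩ := ih (X \ C) (ssubset_iff_of_subset sdiff_subset |>.2
    ⟨x, hx, fun h => (mem_sdiff.1 h).2 hxC⟩)
  have hI : ∀ z ∈ I, z ∈ X ∧ z ∉ C := fun z hz => mem_sdiff.1 (h1 hz)
  have hxI : x ∉ I := fun h => (hI x h).2 hxC
  refine ⟨insert x I, insert_subset hx fun z hz => (hI z hz).1, ?_, fun a ha b hb hab l e => ?_⟩
  · have := le_card_sdiff C X
    rw [card_insert_of_notMem hxI, mul_add_one]
    omega
  · rcases mem_insert.1 ha with ea | ha
    · rcases mem_insert.1 hb with eb | hb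
      · exact hab (ea.trans eb.symm)
      · exact (hI b hb).2 (mem_union_left _ (mem_filter.2 ⟨(hI b hb).1, l, ea ▸ e.symm⟩))
    · rcases mem_insert.1 hb with eb | hb
      · exact (hI a ha).2 (mem_union_right _ (mem_filter.2 ⟨(hI a ha).1, l, eb ▸ e⟩))
      · exact h3 a ha b hb hab l e

theorem mono : StmtMono := by
  intro L V ι _ _ _ _ b M q π l₀ X hπ hs hd
  obtain ⟨I, h1, h2, h3⟩ := mono_greedy π l₀ hπ X
  have := Module.Finite.of_basis b
  refine h2.trans (Nat.mul_le_mul_left _ ?_)
  have li : LinearIndependent L fun x : I => M.rangeRestrict (b x) := by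
    refine Fintype.linearIndependent_iff.2 fun g hg x => ?_
    have e := congrArg (fun v : LinearMap.range M => b.repr v.1 (π l₀ x)) hg
    simp only [Submodule.coe_sum, Submodule.coe_smul, map_sum, map_smul, Finsupp.finsetSum_apply,
      Finsupp.smul_apply, smul_eq_mul, Submodule.coe_zero, map_zero, Finsupp.zero_apply,
      LinearMap.codRestrict_apply, LinearMap.rangeRestrict] at e
    rw [sum_eq_single x (fun z _ hz => ?_) fun h => absurd (mem_univ _) h] at e
    · exact (mul_eq_zero.1 e).resolve_right (hd x (h1 x.2))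
    · refine mul_eq_zero_of_right _ (by_contra fun h => ?_)
      obtain ⟨l, hl⟩ := hs _ _ h
      exact h3 x x.2 z z.2 (fun e => hz (Subtype.ext e.symm)) l hl
  simpa using li.fintype_card_le_finrank

end Pool.Agent.Work.MP_11a08a_al.Cp
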