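import Pool.Agent.Work.MP_11a08a_al.Cp.Defs

/-!
The calculus of `Most`.
-/

set_option autoImplicit false

open Finset Filter

namespace Pool.Agent.Work.MP_11a08a_al.Cp

theorem most_mono (𝒰 : Ultrafilter ℕ) {Ω : ℕ → Type} (S : ∀ n, Finset (Ω n)) (c c' : ℝ)
    (P Q : (∀ n, Ω n) → Prop) (hc : c ≤ c') (hPQ : ∀ u, (∀ n, u n ∈ S n) → P u → Q u)
    (h : Most 𝒰 S c P) : Most 𝒰 S c' Q := by
  obtain ⟨Bad, h1, h2⟩ := h
  refine ⟨Bad, h1.mono fun n hn => hn.trans ?_, fun u hu hb => hPQ u hu (h2 u hu hb)⟩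
  exact mul_le_mul_of_nonneg_right hc (Nat.cast_nonneg _)

theorem most_and (𝒰 : Ultrafilter ℕ) {Ω : ℕ → Type} (S : ∀ n, Finset (Ω n)) (c c' : ℝ)
    (P Q : (∀ n, Ω n) → Prop) (h : Most 𝒰 S c P) (h' : Most 𝒰 S c' Q) :
    Most 𝒰 S (c + c') fun u => P u ∧ Q u := by
  classical
  obtain ⟨Bad, h1, h2⟩ := h
  obtain ⟨Bad', h1', h2'⟩ := h'
  refine ⟨fun n => Bad n ∪ Bad' n, ?_, fun u hu hb => ⟨h2 u hu ?_, h2' u hu ?_⟩⟩
  · filter_upwards [h1, h1'] with n hn hn'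
    have h3 : (#(Bad n ∪ Bad' n) : ℝ) ≤ #(Bad n) + #(Bad' n) := by
      exact_mod_cast Finset.card_union_le (Bad n) (Bad' n)
    rw [add_mul]
    linarith
  · exact hb.mono fun n hn hm => hn (Finset.mem_union_left _ hm)
  · exact hb.mono fun n hn hm => hn (Finset.mem_union_right _ hm)

theorem most_fin (𝒰 : Ultrafilter ℕ) {Ω : ℕ → Type} (S : ∀ n, Finset (Ω n)) (ι : Type)
    [Fintype ι] (c : ℝ) (P : ι → (∀ n, Ω n) → Prop) (h : ∀ i, Most 𝒰 S c (P i)) :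
    Most 𝒰 S (Fintype.card ι * c) fun u => ∀ i, P i u := by
  classical
  choose Bad h1 h2 using h
  refine ⟨fun n => univ.biUnion fun i => Bad i n, ?_, fun u hu hb i => h2 i u hu ?_⟩
  · filter_upwards [Filter.eventually_all.2 h1] with n hn
    have h3 : (#(univ.biUnion fun i => Bad i n) : ℝ) ≤ ∑ i, (#(Bad i n) : ℝ) := by
      exact_mod_cast Finset.card_biUnion_le
    refine h3.trans ((Finset.sum_le_sum fun i _ => hn i).trans (le_of_eq ?_))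
    rw [Finset.sum_const, Finset.card_univ, nsmul_eq_mul, mul_assoc]
  · exact hb.mono fun n hn hm => hn (Finset.mem_biUnion.2 ⟨i, Finset.mem_univ _, hm⟩)

theorem most_geom (N : ℕ) : ∑ m ∈ range N, (1 : ℝ) / 2 ^ (m + 1) = 1 - 1 / 2 ^ N := by
  induction N with
  | zero => simp
  | succ N ih =>
    rw [Finset.sum_range_succ, ih]
    field_simp
    ring

theorem most_count (𝒰 : Ultrafilter ℕ) {Ω : ℕ → Type} (S : ∀ n, Finset (Ω n))
    (hU : (𝒰 : Filter ℕ) ≤ atTop) (ι : Type) [Countable ι] (P : ι → (∀ n, Ω n) → Prop)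
    (h : ∀ i, ∀ ε : ℝ, 0 < ε → Most 𝒰 S ε (P i)) (ε : ℝ) (hε : 0 < ε) :
    Most 𝒰 S ε fun u => ∀ i, P i u := by
  classical
  obtain ⟨e, he⟩ := Countable.exists_injective_nat ι
  have h0 : ∀ i, Most 𝒰 S (ε * (1 / 2 ^ (e i + 1))) (P i) := fun i => h i _ (by positivity)
  choose Bad h1 h2 using h0
  have hB : ∀ (m n : ℕ), ∃ B : Finset (Ω n), (#B : ℝ) ≤ ε * (1 / 2 ^ (m + 1)) * #(S n) ∧
      ∀ i, e i = m → (#(Bad i n) : ℝ) ≤ ε * (1 / 2 ^ (e i + 1)) * #(S n) → Bad i n ⊆ B := by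
    intro m n
    by_cases hx : ∃ i, e i = m ∧ (#(Bad i n) : ℝ) ≤ ε * (1 / 2 ^ (e i + 1)) * #(S n)
    · obtain ⟨i, hi, hi'⟩ := hx
      refine ⟨Bad i n, hi ▸ hi', fun j hj _ => ?_⟩
      have hij : j = i := he (hj.trans hi.symm)
      rw [hij]
    · refine ⟨∅, ?_, fun i hi hi' => (hx ⟨i, hi, hi'⟩).elim⟩
      rw [Finset.card_empty, Nat.cast_zero]
      positivity
  choose B hB1 hB2 using hB
  refine ⟨fun n => (range (n + 1)).biUnion fun m => B m n, Filter.Eventually.of_forall fun n => ?_,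
    fun u hu hb i => h2 i u hu ?_⟩
  · have h3 : (#((range (n + 1)).biUnion fun m => B m n) : ℝ) ≤
        ∑ m ∈ range (n + 1), (#(B m n) : ℝ) := by
      exact_mod_cast Finset.card_biUnion_le
    refine h3.trans ((Finset.sum_le_sum fun m _ => hB1 m n).trans ?_)
    rw [← Finset.sum_mul, ← Finset.mul_sum, most_geom]
    refine mul_le_mul_of_nonneg_right ?_ (Nat.cast_nonneg _)
    have h4 : (0 : ℝ) ≤ 1 / 2 ^ (n + 1) := by positivity
    nlinarith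
  · have h5 : ∀ᶠ n in (𝒰 : Filter ℕ), e i ≤ n := hU (Filter.eventually_ge_atTop (e i))
    filter_upwards [hb, h1 i, h5] with n hn hn1 hn2 hm
    exact hn (Finset.mem_biUnion.2 ⟨e i, Finset.mem_range.2 (Nat.lt_succ_of_le hn2),
      hB2 (e i) n i rfl hn1 hm⟩)

theorem most_exists (𝒰 : Ultrafilter ℕ) {Ω : ℕ → Type} (S : ∀ n, Finset (Ω n)) (c : ℝ)
    (P : (∀ n, Ω n) → Prop) (hS : ∀ n, (S n).Nonempty) (hc : c < 1) (h : Most 𝒰 S c P) :
    ∃ u, (∀ n, u n ∈ S n) ∧ P u := by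
  obtain ⟨Bad, h1, h2⟩ := h
  have hx : ∀ n, ∃ x ∈ S n, (#(Bad n) : ℝ) ≤ c * #(S n) → x ∉ Bad n := by
    intro n
    by_cases hn : (#(Bad n) : ℝ) ≤ c * #(S n)
    · have hpos : (0 : ℝ) < #(S n) := by exact_mod_cast (hS n).card_pos
      have hlt : (#(Bad n) : ℝ) < #(S n) := by nlinarith
      have hlt' : #(Bad n) < #(S n) := by exact_mod_cast hlt
      obtain ⟨x, hx1, hx2⟩ := Finset.exists_mem_notMem_of_card_lt_card hlt'
      exact ⟨x, hx1, fun _ => hx2⟩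
    · obtain ⟨x, hx1⟩ := hS n
      exact ⟨x, hx1, fun h' => (hn h').elim⟩
  choose u hu1 hu2 using hx
  exact ⟨u, hu1, h2 u hu1 (h1.mono fun n hn => hu2 n hn)⟩

theorem most_shift (𝒰 : Ultrafilter ℕ) {Ω : ℕ → Type} (S : ∀ n, Finset (Ω n)) (c : ℝ)
    (P : (∀ n, Ω n) → Prop) (f : ∀ n, Ω n → Ω n) (hf : ∀ n, Function.Injective (f n))
    (hS : ∀ n, ∀ x ∈ S n, f n x ∈ S n) (h : Most 𝒰 S c P) :
    Most 𝒰 S c fun u => P fun n => f n (u n) := by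
  obtain ⟨Bad, h1, h2⟩ := h
  refine ⟨fun n => (Bad n).preimage (f n) (hf n).injOn, h1.mono fun n hn => le_trans ?_ hn,
    fun u hu hb => h2 _ (fun n => hS n _ (hu n)) ?_⟩
  · have h3 : #((Bad n).preimage (f n) (hf n).injOn) ≤ #(Bad n) :=
      Finset.card_le_card_of_injOn (f n) (fun x hx => Finset.mem_preimage.1 hx) (hf n).injOn
    exact_mod_cast h3
  · exact hb.mono fun n hn hm => hn (Finset.mem_preimage.2 hm)

theorem most : StmtMost := by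
  intro 𝒰 Ω S hU
  exact ⟨most_mono 𝒰 S, most_and 𝒰 S, most_fin 𝒰 S, most_count 𝒰 S hU, most_exists 𝒰 S,
    most_shift 𝒰 S⟩

end Pool.Agent.Work.MP_11a08a_al.Cp
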