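import Pool.Agent.Work.MP_11a08a_al.Cp.Step

/-!
The number theoretic theorem.
-/

set_option autoImplicit false

open Finset Filter

namespace Pool.Agent.Work.MP_11a08a_al.Cp

theorem nt_pow (q K : ℕ) : ∃ D : ℕ, q * K ^ D < (K + 1) ^ D := by
  have h : ∀ D : ℕ, K ^ D * (K + D) ≤ (K + 1) ^ D * K := by
    intro D
    induction D with
    | zero => simp
    | succ D ih =>
      have h1 : K * (K + (D + 1)) ≤ (K + D) * (K + 1) := by nlinarith [Nat.zero_le D]
      calc K ^ (D + 1) * (K + (D + 1)) = K ^ D * (K * (K + (D + 1))) := by ring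
        _ ≤ K ^ D * ((K + D) * (K + 1)) := Nat.mul_le_mul_left _ h1
        _ = K ^ D * (K + D) * (K + 1) := by ring
        _ ≤ (K + 1) ^ D * K * (K + 1) := Nat.mul_le_mul_right _ ih
        _ = _ := by ring
  rcases Nat.eq_zero_or_pos K with rfl | hK
  · exact ⟨1, by simp⟩
  refine ⟨q * K, lt_of_mul_lt_mul_right (lt_of_lt_of_le ?_ (h _)) (Nat.zero_le K)⟩
  have : 0 < K ^ (q * K) := by positivity
  nlinarith [Nat.mul_pos this hK]

theorem nt (hB : StmtBGK) (h2 : StmtCnt2) (h1 : StmtCnt1) (hS : StmtSR) (hM : StmtMost)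
    (hA : StmtAlg) : StmtNT := by
  classical
  intro η hη q
  obtain ⟨δ, hδ, r₁, hb⟩ := hB η hη
  obtain ⟨k, hk⟩ := exists_nat_ge (1 / δ)
  have hk0 : 1 ≤ k := by
    have : (0 : ℝ) < k := lt_of_lt_of_le (by positivity) hk
    exact_mod_cast this
  obtain ⟨D, hD⟩ := nt_pow q (2 * k - 1)
  rw [Nat.sub_add_cancel (by omega)] at hD
  refine ⟨1 / (2 * (2 * k + 1) ^ D), by positivity, ?_⟩
  by_contra hc
  push Not at hc
  choose r hp hr K hK γ hγ U hU hη' a β hz hc using fun n => hc (max n r₁)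
  choose z hz using hz
  let 𝒰 : Ultrafilter ℕ := Ultrafilter.of atTop
  have hle : (𝒰 : Filter ℕ) ≤ atTop := Ultrafilter.of_le _
  have hr' : Tendsto r 𝒰 atTop :=
    (tendsto_atTop_mono (fun n => (le_max_left _ _).trans (hr n)) tendsto_id).mono_left hle
  obtain ⟨L, _, π, hs, h0⟩ := ult_exists 𝒰 K
  have hr0 : ∀ n, (0 : ℝ) < r n := fun n => by exact_mod_cast (hp n).out.pos
  have hθ : ∀ n, (r n : ℝ) * ((r n : ℝ) ^ (-δ)) ^ k ≤ 1 := by
    intro n
    have h : (1 : ℝ) ≤ r n := by exact_mod_cast (hp n).out.pos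
    rw [← Real.rpow_natCast, ← Real.rpow_mul (hr0 n).le, mul_comm,
      ← Real.rpow_add_one (hr0 n).ne']
    refine Real.rpow_le_one_of_one_le_of_nonpos h ?_
    rw [div_le_iff₀ hδ] at hk
    linarith
  have hφ := fun n => hb (r n) (U n) ((le_max_right _ _).trans (hr n)) (hU n) (hη' n)
  have k2 := fun n => h2 (r n) (U n) k _ (by positivity) (hθ n) (hφ n)
  have k1 := fun n => h1 (r n) (U n) k _ (by positivity) (hθ n) (hφ n)
  have hn : ∀ n, (0 : ℝ) < #(U n) := fun n => by exact_mod_cast card_pos.2 ⟨1, (hU n).one⟩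
  have H : Dat 𝒰 r K γ U k L π := by
    refine ⟨hle, hr', hγ, hU, hs, h0, hk0, fun n => ?_, fun n => (k2 n).2, fun ε hε => ?_⟩
    · rw [← card_pos]
      have h3 : (0 : ℝ) < r n * #(sol (U n) k) := lt_of_lt_of_le (pow_pos (hn n) _) (k2 n).1
      exact_mod_cast (mul_pos_iff_of_pos_left (hr0 n)).1 h3
    · have t0 : Tendsto (fun n => (r n : ℝ)) 𝒰 atTop := tendsto_natCast_atTop_atTop.comp hr'
      have t1 : Tendsto (fun n => 2 / (r n : ℝ) + 2 * k * (r n : ℝ) ^ (-δ)) 𝒰 (nhds (0 + 2 * k * 0)) :=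
        (tendsto_const_nhds.div_atTop t0).add
          (((tendsto_rpow_neg_atTop hδ).comp t0).const_mul _)
      rw [mul_zero, add_zero] at t1
      filter_upwards [t1.eventually_le_const hε] with n hn' c i₀ c0 c1
      have h3 := (k1 n c i₀ c0 c1).trans (mul_le_mul_of_nonneg_left (k2 n).1 (by positivity))
      refine le_trans ?_ (mul_le_mul_of_nonneg_right hn' (Nat.cast_nonneg _))
      refine le_of_mul_le_mul_right (h3.trans_eq ?_) (pow_pos (hr0 n) 2)
      have := (hr0 n).ne'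
      field_simp
  let K₀ : Subfield L := Subfield.closure (Set.range fun l => π fun n => β n l)
  have : Countable K₀ := by
    rw [← Cardinal.mk_le_aleph0_iff]
    refine (Subfield.cardinalMk_closure_le_max _).trans (max_le ?_ le_rfl)
    rw [Cardinal.mk_le_aleph0_iff]
    exact (Set.finite_range _).countable.to_subtype
  have hall : ∀ j : ℕ, Claim 𝒰 γ U π K₀ (q * (2 * k - 1) ^ j) ((2 * k) ^ j)
      ((2 * k + 1) ^ j * (1 / (2 * (2 * k + 1) ^ D))) := by
    intro j
    induction j with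
    | zero =>
      simp only [pow_zero, mul_one, one_mul]
      exact H.base hA (fun l n => a n l) (fun l n => β n l) z hz K₀
        (fun l => Subfield.subset_closure ⟨l, rfl⟩) _ (fun n => (hc n).le)
        fun n u hu h => by_contra fun h' => h (mem_filter.2 ⟨hu, h'⟩)
    | succ j ih =>
      have := H.step hS hM hA K₀ (by positivity) ih
      convert this using 1 <;> ring
  obtain ⟨I, _, v, -, hI, hm⟩ := hall D
  obtain ⟨u, -, hu⟩ := (hM 𝒰 _ U hle).2.2.2.2.1 _ _ (fun n => ⟨1, (hU n).one⟩)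
    (by rw [mul_one_div, div_lt_one (by positivity)]
        have : (0 : ℝ) < (2 * k + 1) ^ D := by positivity
        linarith) hm
  have h3 : (((2 * k) ^ D : ℕ) : ℕ∞) ≤ Fintype.card I := le_add_self.trans hu
  have h4 : (2 * k) ^ D ≤ Fintype.card I := by exact_mod_cast h3
  omega

end Pool.Agent.Work.MP_11a08a_al.Cp
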