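import Pool.Agent.Work.MP_11a08a_al.Cp.Defs

/-!
The sum-product estimate from its three steps.
-/

set_option autoImplicit false

open Finset
open scoped Pointwise

namespace Pool.Agent.Work.MP_11a08a_al.Cp

lemma sp_step (h3 : StmtSP3) (r : ℕ) [Fact r.Prime] (A B : Finset (ZMod r)) (W : ℝ)
    (hA : A.Nonempty) (hW : 1 ≤ W) (hD : (#(A - A) : ℝ) ≤ W * #A)
    (hB : ∀ u ∈ B, (#(A + u • A) : ℝ) ≤ W * #A) {a b c : ZMod r} (ha : a ∈ B - B)
    (hb : b ∈ B - B) (hc : c ∈ B - B) :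
    ∀ u ∈ b • B + (a + c) • B, (#(A + u • A) : ℝ) ≤ W ^ 26 * #A := by
  have hp : ∀ n : ℕ, 1 ≤ W ^ n := fun n => one_le_pow₀ hW
  have h6 : ∀ d ∈ B - B, (#(A + d • A) : ℝ) ≤ W ^ 6 * #A := by
    intro d hd
    obtain ⟨x, hx, y, hy, rfl⟩ := mem_sub.1 hd
    exact (h3 r A W W W x y hA hW hW hW hD (hB x hx) (hB y hy)).2.2.trans (le_of_eq (by ring))
  have h15 : (#(A + (a + c) • A) : ℝ) ≤ W ^ 15 * #A :=
    (h3 r A W (W ^ 6) (W ^ 6) a c hA hW (hp 6) (hp 6) hD (h6 a ha) (h6 c hc)).2.1.trans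
      (le_of_eq (by ring))
  intro u hu
  obtain ⟨s, hs, t, ht, rfl⟩ := mem_add.1 hu
  obtain ⟨x, hx, rfl⟩ := mem_smul_finset.1 hs
  obtain ⟨y, hy, rfl⟩ := mem_smul_finset.1 ht
  have h7 : (#(A + (b * x) • A) : ℝ) ≤ W ^ 7 * #A :=
    (h3 r A W (W ^ 6) W b x hA hW (hp 6) hW hD (h6 b hb) (hB x hx)).1.trans (le_of_eq (by ring))
  have h16 : (#(A + ((a + c) * y) • A) : ℝ) ≤ W ^ 16 * #A :=
    (h3 r A W (W ^ 15) W (a + c) y hA hW (hp 15) hW hD h15 (hB y hy)).1.trans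
      (le_of_eq (by ring))
  exact (h3 r A W (W ^ 7) (W ^ 16) (b * x) ((a + c) * y) hA hW (hp 7) (hp 16) hD h7
    h16).2.1.trans (le_of_eq (by ring))

theorem sp (h1 : StmtSP1) (h2 : StmtSP2) (h3 : StmtSP3) : StmtSP := by
  intro T
  induction T with
  | zero =>
    refine ⟨1, fun r _ A B W _ hA _ _ hB hB2 hr => ?_⟩
    obtain ⟨x, hx, hx2⟩ := h1 r A B hA (card_pos.1 (by omega))
    have h4 : min ((#A : ℝ) ^ 2) (#B : ℝ) ≤ 2 * #(A + x • A) := by exact_mod_cast hx2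
    have h5 : min ((#A : ℝ) ^ 2) ((r : ℝ) / 2) ≤ min ((#A : ℝ) ^ 2) (#B : ℝ) :=
      min_le_min le_rfl (by rw [pow_zero, pow_one] at hr; linarith)
    have h6 := hB x hx
    rw [pow_one]
    linarith
  | succ T ih =>
    obtain ⟨c, hc⟩ := ih
    refine ⟨26 * c, fun r _ A B W hr5 hA hW hD hB hB2 hr => ?_⟩
    obtain ⟨a, ha, b, hb, d, hd, hcard⟩ := h2 r B hB2
    have h4 : 2 ≤ #(b • B + (a + d) • B) := by
      have h5 : 4 ≤ #B ^ 2 := by nlinarith
      have h6 : 4 ≤ min (#B ^ 2) r := le_min h5 (by omega)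
      omega
    have hA0 : (0 : ℝ) ≤ #A := Nat.cast_nonneg _
    rw [pow_mul]
    refine hc r A (b • B + (a + d) • B) (W ^ 26) hr5 hA (one_le_pow₀ hW)
      (hD.trans (mul_le_mul_of_nonneg_right (le_self_pow₀ hW (by norm_num)) hA0))
      (sp_step h3 r A B W hA hW hD hB ha hb hd) h4 ?_
    rcases le_total (#B ^ 2) r with h | h
    · rw [min_eq_left h] at hcard
      have h5 : (#B : ℝ) ^ 2 ≤ 2 * #(b • B + (a + d) • B) := by exact_mod_cast hcard
      refine hr.trans ?_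
      rw [pow_succ', pow_mul]
      exact pow_le_pow_left₀ (by positivity) (by linarith) _
    · rw [min_eq_right h] at hcard
      have h5 : (r : ℝ) ≤ 2 * #(b • B + (a + d) • B) := by exact_mod_cast hcard
      have h6 : (2 : ℝ) ≤ #(b • B + (a + d) • B) := by exact_mod_cast h4
      exact le_trans (by linarith) (le_self_pow₀ (by linarith) (by positivity))

end Pool.Agent.Work.MP_11a08a_al.Cp
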