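import Pool.Agent.Work.MP_11a08a_al.Cp.Defs

/-!
Averaging the additive energy over dilates, and one step of growth.
-/

set_option autoImplicit false

open Finset
open scoped Pointwise

namespace Pool.Agent.Work.MP_11a08a_al.Cp

theorem sp1_cs {P Z : Type} [DecidableEq Z] (S : Finset P) (f : P → Z) :
    #S ^ 2 ≤ #(S.image f) * #((S ×ˢ S).filter fun q => f q.1 = f q.2) := by
  have h1 : #S = ∑ z ∈ S.image f, #(S.filter fun p => f p = z) :=
    card_eq_sum_card_image f S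
  have h2 : #((S ×ˢ S).filter fun q => f q.1 = f q.2) =
      ∑ z ∈ S.image f, #(S.filter fun p => f p = z) ^ 2 := by
    rw [card_eq_sum_card_fiberwise (f := fun q : P × P => f q.1) (t := S.image f)]
    · refine sum_congr rfl fun z _ => ?_
      rw [sq, ← card_product]
      congr 1
      ext q
      simp only [mem_filter, mem_product]
      constructor
      · rintro ⟨⟨⟨a, b⟩, c⟩, d⟩
        exact ⟨⟨a, d⟩, b, c ▸ d⟩
      · rintro ⟨⟨a, d⟩, b, c⟩
        exact ⟨⟨⟨a, b⟩, d.trans c.symm⟩, d⟩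
    · intro q hq
      have hq' := mem_filter.1 (mem_coe.1 hq)
      exact mem_coe.2 (mem_image_of_mem f (mem_product.1 hq'.1).1)
  rw [h2]
  conv_lhs => rw [h1]
  exact sq_sum_le_card_mul_sum_sq

theorem sp1_sum {F : Type} [Field F] [DecidableEq F] (A B : Finset F) :
    ∑ x ∈ B, #(((A ×ˢ A) ×ˢ (A ×ˢ A)).filter
      fun q => q.1.1 + x * q.1.2 = q.2.1 + x * q.2.2) ≤
        #B * #(A ×ˢ A) + #(A ×ˢ A) ^ 2 := by
  have h1 : ∀ x : F, #(((A ×ˢ A) ×ˢ (A ×ˢ A)).filter
      fun q => q.1.1 + x * q.1.2 = q.2.1 + x * q.2.2) ≤ #(A ×ˢ A) +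
        #(((A ×ˢ A) ×ˢ (A ×ˢ A)).filter
          fun q => q.1.2 ≠ q.2.2 ∧ q.1.1 + x * q.1.2 = q.2.1 + x * q.2.2) := by
    intro x
    refine le_trans (card_le_card (t := ((A ×ˢ A).image fun p => (p, p)) ∪
      (((A ×ˢ A) ×ˢ (A ×ˢ A)).filter
        fun q => q.1.2 ≠ q.2.2 ∧ q.1.1 + x * q.1.2 = q.2.1 + x * q.2.2)) ?_) ?_
    · intro q hq
      obtain ⟨hq1, hq2⟩ := mem_filter.1 hq
      by_cases h : q.1.2 = q.2.2
      · refine mem_union_left _ (mem_image.2 ⟨q.1, (mem_product.1 hq1).1, ?_⟩)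
        have h3 : q.1.1 = q.2.1 := by
          rw [h] at hq2
          exact add_right_cancel hq2
        exact Prod.ext rfl (Prod.ext h3 h)
      · exact mem_union_right _ (mem_filter.2 ⟨hq1, h, hq2⟩)
    · exact (card_union_le _ _).trans (Nat.add_le_add_right card_image_le _)
  refine (sum_le_sum fun x _ => h1 x).trans ?_
  rw [sum_add_distrib, sum_const, smul_eq_mul]
  refine Nat.add_le_add_left ?_ _
  rw [← card_biUnion]
  · rw [sq, ← card_product]
    exact card_le_card (biUnion_subset.2 fun x _ => filter_subset _ _)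
  · intro x _ y _ hxy
    refine disjoint_left.2 fun q hx hy => hxy ?_
    obtain ⟨-, h, hx⟩ := mem_filter.1 hx
    obtain ⟨-, -, hy⟩ := mem_filter.1 hy
    have h4 : (x - y) * (q.1.2 - q.2.2) = 0 := by linear_combination hx - hy
    exact sub_eq_zero.1 ((mul_eq_zero.1 h4).resolve_right (sub_ne_zero.2 h))

theorem sp1_img {F : Type} [Field F] [DecidableEq F] (A : Finset F) (x y : F) :
    ((A ×ˢ A).image fun p : F × F => y * p.1 + x * p.2) ⊆ y • A + x • A := by
  intro z hz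
  obtain ⟨p, hp, rfl⟩ := mem_image.1 hz
  obtain ⟨h1, h2⟩ := mem_product.1 hp
  exact add_mem_add (smul_mem_smul_finset (a := y) h1) (smul_mem_smul_finset (a := x) h2)

theorem sp1_num (m b s E : ℕ) (hm : 0 < m) (hb : 0 < b) (h1 : m ^ 2 ≤ s * E)
    (h2 : b * E ≤ b * m + m ^ 2) : min m b ≤ 2 * s := by
  have h3 : m * (b * m) ≤ m * (s * (b + m)) := by
    calc m * (b * m) = b * m ^ 2 := by ring
      _ ≤ b * (s * E) := Nat.mul_le_mul_left _ h1
      _ = s * (b * E) := by ring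
      _ ≤ s * (b * m + m ^ 2) := Nat.mul_le_mul_left _ h2
      _ = m * (s * (b + m)) := by ring
  have h4 : b * m ≤ s * (b + m) := Nat.le_of_mul_le_mul_left h3 hm
  rcases le_total m b with h | h
  · refine (min_le_left _ _).trans (Nat.le_of_mul_le_mul_left ?_ hb)
    calc b * m ≤ s * (b + m) := h4
      _ ≤ s * (b + b) := Nat.mul_le_mul_left _ (Nat.add_le_add_left h _)
      _ = b * (2 * s) := by ring
  · refine (min_le_right _ _).trans (Nat.le_of_mul_le_mul_left ?_ hm)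
    calc m * b = b * m := by ring
      _ ≤ s * (b + m) := h4
      _ ≤ s * (m + m) := Nat.mul_le_mul_left _ (Nat.add_le_add_right h _)
      _ = m * (2 * s) := by ring

theorem sp1 : StmtSP1 := by
  intro r _ A B hA hB
  have h1 := sp1_sum A B
  obtain ⟨x, hx, h2⟩ := exists_le_of_sum_le (s := B)
    (f := fun x => #B * #(((A ×ˢ A) ×ˢ (A ×ˢ A)).filter
      fun q => q.1.1 + x * q.1.2 = q.2.1 + x * q.2.2))
    (g := fun _ => #B * #(A ×ˢ A) + #(A ×ˢ A) ^ 2) hB (by
      rw [← mul_sum, sum_const, smul_eq_mul]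
      exact Nat.mul_le_mul_left _ h1)
  refine ⟨x, hx, ?_⟩
  have h3 := sp1_cs (A ×ˢ A) (fun p : ZMod r × ZMod r => p.1 + x * p.2)
  have h4 : #((A ×ˢ A).image fun p : ZMod r × ZMod r => p.1 + x * p.2) ≤ #(A + x • A) := by
    have := card_le_card (sp1_img A x 1)
    simpa using this
  have h5 := sp1_num _ _ _ _ (card_pos.2 (hA.product hA)) (card_pos.2 hB)
    (h3.trans (Nat.mul_le_mul_right _ h4)) h2
  rwa [card_product, ← sq] at h5

theorem sp2 (h : StmtSP1) : StmtSP2 := by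
  intro r _ B hB
  obtain ⟨u, hu, v, hv, huv⟩ := one_lt_card.1 hB
  have h0 : (0 : ZMod r) ∈ B - B := by simpa using sub_mem_sub hu hu
  by_cases hQ : ∀ a ∈ B - B, ∀ b ∈ B - B, b ≠ 0 →
      ∃ a' ∈ B - B, ∃ b' ∈ B - B, b' ≠ 0 ∧ a / b + 1 = a' / b'
  · have hall : ∀ n : ℕ, ∃ a ∈ B - B, ∃ b ∈ B - B, b ≠ 0 ∧ (n : ZMod r) = a / b := by
      intro n
      induction n with
      | zero => exact ⟨0, h0, u - v, sub_mem_sub hu hv, sub_ne_zero.2 huv, by simp⟩
      | succ n ih =>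
        obtain ⟨a, ha, b, hb, hb0, e⟩ := ih
        obtain ⟨a', ha', b', hb', hb0', e'⟩ := hQ a ha b hb hb0
        exact ⟨a', ha', b', hb', hb0', by rw [Nat.cast_succ, e, e']⟩
    obtain ⟨x, -, hx⟩ := h r B univ ⟨u, hu⟩ univ_nonempty
    obtain ⟨a, ha, b, hb, hb0, e⟩ := hall x.val
    rw [ZMod.natCast_zmod_val] at e
    refine ⟨a, ha, b, hb, 0, h0, ?_⟩
    rw [card_univ, ZMod.card] at hx
    have e2 : b • B + (a + 0) • B = b • (B + x • B) := by
      rw [smul_add, smul_smul, e, add_zero, mul_div_cancel₀ _ hb0]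
    rw [e2, card_smul_finset₀ hb0]
    exact hx
  · push Not at hQ
    obtain ⟨a, ha, b, hb, hb0, hQ⟩ := hQ
    refine ⟨a, ha, b, hb, b, hb, (min_le_left _ _).trans ?_⟩
    have h1 := card_le_card (sp1_img B (a + b) b)
    rw [card_image_of_injOn, card_product, ← sq] at h1
    · omega
    · intro p hp q hq e
      obtain ⟨hp1, hp2⟩ := mem_product.1 (mem_coe.1 hp)
      obtain ⟨hq1, hq2⟩ := mem_product.1 (mem_coe.1 hq)
      have e' : b * p.1 + (a + b) * p.2 = b * q.1 + (a + b) * q.2 := e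
      have h2 : p.2 = q.2 := by
        by_contra hne
        have hne' : q.2 - p.2 ≠ 0 := sub_ne_zero.2 (Ne.symm hne)
        refine hQ (p.1 - q.1) (sub_mem_sub hp1 hq1) (q.2 - p.2) (sub_mem_sub hq2 hp2) hne' ?_
        field_simp
        linear_combination -e'
      rw [h2] at e'
      exact Prod.ext (mul_left_cancel₀ hb0 (add_right_cancel e')) h2

end Pool.Agent.Work.MP_11a08a_al.Cp
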