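import Pool.Agent.Work.MP_11a08a_al.Cp.Defs

/-! The dilates with a small sum set are closed under products and sums. -/

set_option autoImplicit false

open Finset
open scoped Pointwise

namespace Pool.Agent.Work.MP_11a08a_al.Cp

section
variable {F : Type} [Field F] [DecidableEq F]

theorem sp3_tri {A B C : Finset F} {a P Q : ℝ} (ha : 0 < a) (hB : (#B : ℝ) = a) (hP : 0 ≤ P)
    (h1 : (#(A + B) : ℝ) ≤ P * a) (h2 : (#(B + C) : ℝ) ≤ Q * a) :
    (#(A + C) : ℝ) ≤ P * Q * a := by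
  have h : (#(A + C) : ℝ) * #B ≤ #(A + B) * #(B + C) := by
    exact_mod_cast Finset.ruzsa_triangle_inequality_add_add_add A B C
  rw [hB] at h
  have h3 : (#(A + B) : ℝ) * #(B + C) ≤ (P * a) * (Q * a) :=
    mul_le_mul h1 h2 (Nat.cast_nonneg _) (mul_nonneg hP ha.le)
  refine le_of_mul_le_mul_right (h.trans (h3.trans (le_of_eq ?_))) ha
  ring

theorem sp3_card {x : F} (hx : x ≠ 0) (A : Finset F) : #(x • A) = #A :=
  Finset.card_image_of_injective _ (mul_right_injective₀ hx)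

theorem sp3_mul {A : Finset F} {X Y : ℝ} {x y : F} (hA : A.Nonempty) (hX : 1 ≤ X) (hY : 1 ≤ Y)
    (hx : (#(A + x • A) : ℝ) ≤ X * #A) (hy : (#(A + y • A) : ℝ) ≤ Y * #A) :
    (#(A + (x * y) • A) : ℝ) ≤ X * Y * #A := by
  have ha : (0 : ℝ) < #A := by exact_mod_cast hA.card_pos
  by_cases h0 : x = 0
  · subst h0
    rw [zero_mul]
    refine hx.trans (mul_le_mul_of_nonneg_right ?_ ha.le)
    nlinarith
  · refine sp3_tri (B := x • A) ha (by rw [sp3_card h0]) (by linarith) hx ?_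
    rw [mul_smul, ← smul_add, sp3_card h0]
    exact hy

theorem sp3_three {A : Finset F} {D : ℝ} (hA : A.Nonempty) (hD : (#(A - A) : ℝ) ≤ D * #A) :
    (#(A + A + A) : ℝ) ≤ D ^ 3 * #A := by
  have ha : (0 : ℝ) < #A := by exact_mod_cast hA.card_pos
  have h := Finset.pluennecke_ruzsa_inequality_nsmul_sub hA A 3
  have e : (3 : ℕ) • A = A + A + A := by
    rw [succ_nsmul, two_nsmul]
  rw [e] at h
  have h' : (#(A + A + A) : ℝ) ≤ ((#(A - A) : ℝ) / #A) ^ 3 * #A := by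
    have := (NNRat.cast_le (K := ℝ)).2 h
    push_cast at this
    exact this
  refine h'.trans (mul_le_mul_of_nonneg_right ?_ ha.le)
  exact pow_le_pow_left₀ (by positivity) ((div_le_iff₀ ha).2 hD) 3

theorem sp3_add {A : Finset F} {D X Y : ℝ} {x y : F} (hA : A.Nonempty) (hD1 : 1 ≤ D) (hX : 1 ≤ X)
    (hD : (#(A - A) : ℝ) ≤ D * #A)
    (hx : (#(A + x • A) : ℝ) ≤ X * #A) (hy : (#(A + y • A) : ℝ) ≤ Y * #A) :
    (#(A + (x + y) • A) : ℝ) ≤ D ^ 3 * X * Y * #A := by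
  have ha : (0 : ℝ) < #A := by exact_mod_cast hA.card_pos
  have h1 : (#(A + A + x • A) : ℝ) ≤ D ^ 3 * X * #A :=
    sp3_tri (B := A) ha rfl (by positivity) (sp3_three hA hD) hx
  have h2 : (#(A + x • A + y • A) : ℝ) ≤ D ^ 3 * X * Y * #A := by
    refine sp3_tri (B := A) ha rfl (by positivity) ?_ hy
    rw [add_right_comm]
    exact h1
  refine le_trans ?_ h2
  refine Nat.cast_le.2 (Finset.card_le_card fun z hz => ?_)
  obtain ⟨a, ha, w, hw, rfl⟩ := Finset.mem_add.1 hz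
  obtain ⟨b, hb, rfl⟩ := Finset.mem_smul_finset.1 hw
  rw [add_smul, ← add_assoc]
  exact Finset.add_mem_add (Finset.add_mem_add ha (Finset.smul_mem_smul_finset hb))
    (Finset.smul_mem_smul_finset hb)

theorem sp3_neg (A : Finset F) : A + (-1 : F) • A = A - A := by
  ext z
  rw [Finset.mem_add, Finset.mem_sub]
  constructor
  · rintro ⟨a, ha, w, hw, rfl⟩
    obtain ⟨b, hb, rfl⟩ := Finset.mem_smul_finset.1 hw
    exact ⟨a, ha, b, hb, by rw [smul_eq_mul]; ring⟩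
  · rintro ⟨a, ha, b, hb, rfl⟩
    exact ⟨a, ha, _, Finset.smul_mem_smul_finset hb, by rw [smul_eq_mul]; ring⟩

end

theorem sp3 : StmtSP3 := by
  intro r _ A D X Y x y hA hD1 hX hY hD hx hy
  refine ⟨sp3_mul hA hX hY hx hy, sp3_add hA hD1 hX hD hx hy, ?_⟩
  have h1 : (#(A + ((-1 : ZMod r) * y) • A) : ℝ) ≤ D * Y * #A :=
    sp3_mul hA hD1 hY (by rw [sp3_neg]; exact hD) hy
  have h2 := sp3_add hA hD1 hX hD hx h1
  have e : x + -1 * y = x - y := by ring
  rw [e] at h2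
  refine h2.trans (le_of_eq ?_)
  ring

end Pool.Agent.Work.MP_11a08a_al.Cp
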