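import Pool.Agent.Work.MP_11a08a_al.Cp.Defs

/-! A sparse sum has few zeros on the roots of unity of prime order. -/

set_option autoImplicit false

open Finset Polynomial

namespace Pool.Agent.Work.MP_11a08a_al.Cp

theorem sr_close {r L a b : ℕ} (hr : 0 < r) (hL : 0 < L) (h : a * L / r = b * L / r) :
    a ≤ b + r / L := by
  have h1 : a * L < (a * L / r + 1) * r := by
    rw [add_mul, one_mul]; exact Nat.lt_div_mul_add hr
  have h2 : b * L / r * r ≤ b * L := Nat.div_mul_le_self _ _
  rw [h, add_mul, one_mul] at h1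
  rcases le_total a b with hab | hab
  · exact hab.trans (Nat.le_add_right _ _)
  · obtain ⟨d, rfl⟩ := Nat.exists_eq_add_of_le hab
    rw [add_mul] at h1
    exact Nat.add_le_add_left ((Nat.le_div_iff_mul_le hL).2 (by omega)) _

theorem sr_pow {r : ℕ} {K : Type} [Field K] {γ : K} (h : γ ^ r = 1) {a b : ℕ}
    (hab : (a : ZMod r) = b) : γ ^ a = γ ^ b := by
  rw [pow_eq_pow_mod a h, pow_eq_pow_mod b h, (ZMod.natCast_eq_natCast_iff' a b r).1 hab]

theorem sr : StmtSR := by
  classical
  intro N ε hε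
  obtain ⟨L, hL⟩ := exists_nat_gt (2 / ε)
  have hL0 : 0 < L := by exact_mod_cast (lt_trans (by positivity) hL : (0 : ℝ) < L)
  refine ⟨L ^ N + 1, fun r _ hr K _ γ hγ ι T e c hT he ⟨i₀, hi₀, hc⟩ => ?_⟩
  have hp : r.Prime := Fact.out
  have hr0 : 0 < r := hp.pos
  let f : ZMod r → T → Fin L := fun t i => ⟨(t * e i).val * L / r, by
    rw [Nat.div_lt_iff_lt_mul hr0, mul_comm L r]
    exact Nat.mul_lt_mul_of_pos_right (ZMod.val_lt _) hL0⟩
  obtain ⟨t, t₂, htt, hf⟩ := Fintype.exists_ne_map_eq_of_card_lt f (by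
    rw [Fintype.card_fun, Fintype.card_fin, Fintype.card_coe, ZMod.card]
    exact lt_of_le_of_lt (Nat.pow_le_pow_right hL0 hT) hr)
  have hf' : ∀ i ∈ T, (t * e i).val * L / r = (t₂ * e i).val * L / r := fun i hi =>
    congrArg Fin.val (congrFun hf ⟨i, hi⟩)
  set s := r / L with hs
  set v := t - t₂ with hv
  have hv0 : v ≠ 0 := sub_ne_zero.2 htt
  let n : ι → ℕ := fun i => (t * e i).val + s - (t₂ * e i).val
  have hn1 : ∀ i ∈ T, n i ≤ 2 * s := fun i hi => by
    have := sr_close hr0 hL0 (hf' i hi)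
    simp only [n]; omega
  have hn2 : ∀ i ∈ T, (n i : ZMod r) = v * e i + s := fun i hi => by
    have := sr_close hr0 hL0 (hf' i hi).symm
    simp only [n]
    rw [Nat.cast_sub (by omega), Nat.cast_add, ZMod.natCast_zmod_val, ZMod.natCast_zmod_val, hv]
    ring
  have hn3 : ∀ i ∈ T, n i = n i₀ → i = i₀ := fun i hi h => by
    have h1 := hn2 i hi
    rw [h, hn2 i₀ hi₀, add_left_inj] at h1
    exact he hi hi₀ (mul_left_cancel₀ hv0 h1).symm
  let P : K[X] := ∑ i ∈ T, monomial (n i) (c i)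
  have hP0 : P ≠ 0 := fun h => hc (by
    have h1 := congrArg (fun Q : K[X] => Q.coeff (n i₀)) h
    simp only [P, finsetSum_coeff, coeff_monomial, coeff_zero] at h1
    rw [Finset.sum_eq_single_of_mem i₀ hi₀ fun i hi hne => if_neg fun h => hne (hn3 i hi h),
      if_pos rfl] at h1
    exact h1)
  have hPd : P.natDegree ≤ 2 * s :=
    natDegree_sum_le_of_forall_le _ _ fun i hi => (natDegree_monomial_le _).trans (hn1 i hi)
  have hcard : #(univ.filter fun z : ZMod r => ∑ i ∈ T, c i * γ ^ (e i * z).val = 0) ≤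
      #P.roots.toFinset := by
    refine Finset.card_le_card_of_injOn (fun z => γ ^ (v⁻¹ * z).val) (fun z hz => ?_)
      fun z _ z' _ h => ?_
    · have hz' := (Finset.mem_filter.1 hz).2
      rw [Finset.mem_coe, Multiset.mem_toFinset, mem_roots hP0, IsRoot.def]
      simp only [P, eval_finsetSum, eval_monomial]
      have h2 : ∀ i ∈ T, c i * (γ ^ (v⁻¹ * z).val) ^ n i =
          c i * γ ^ (e i * z).val * γ ^ ((v⁻¹ * z).val * s) := fun i hi => by
        rw [← pow_mul, mul_assoc, ← pow_add]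
        congr 1
        refine sr_pow hγ.pow_eq_one ?_
        push_cast
        rw [hn2 i hi, ZMod.natCast_zmod_val, ZMod.natCast_zmod_val]
        field_simp
      rw [Finset.sum_congr rfl h2, ← Finset.sum_mul, hz', zero_mul]
    · have h1 := hγ.pow_inj (ZMod.val_lt _) (ZMod.val_lt _) h
      exact mul_left_cancel₀ (inv_ne_zero hv0) (ZMod.val_injective r h1)
  have h3 := hcard.trans ((Multiset.toFinset_card_le _).trans ((card_roots' P).trans hPd))
  have h4 : (s : ℝ) ≤ r / L := Nat.cast_div_le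
  have hL' : (0 : ℝ) < L := by exact_mod_cast hL0
  have h5 : 2 / (L : ℝ) ≤ ε := by
    rw [div_le_iff₀ hL']
    rw [div_lt_iff₀ hε] at hL
    linarith
  calc _ ≤ ((2 * s : ℕ) : ℝ) := by
        rw [Nat.cast_le]
        convert h3
    _ ≤ 2 / (L : ℝ) * r := by
        push_cast
        rw [div_mul_eq_mul_div, mul_div_assoc]
        linarith
    _ ≤ ε * r := mul_le_mul_of_nonneg_right h5 (Nat.cast_nonneg _)

end Pool.Agent.Work.MP_11a08a_al.Cp
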