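import Pool.Agent.Work.MP_11a08a_al.Cp.Defs

/-! Parseval, invariance and statistical closure of the large spectrum. -/

open Finset

namespace Pool.Agent.Work.MP_11a08a_al.Cp

variable {r : ℕ} [Fact r.Prime]

lemma spec_norm_e (x : ZMod r) : ‖(ZMod.stdAddChar x : ℂ)‖ = 1 := AddChar.norm_apply _ _

lemma spec_e_mul_conj (x y : ZMod r) :
    (ZMod.stdAddChar x : ℂ) * (starRingEnd ℂ) (ZMod.stdAddChar y) = ZMod.stdAddChar (x - y) := by
  rw [← AddChar.map_neg_eq_conj, ← AddChar.map_add_eq_mul, sub_eq_add_neg]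

lemma spec_norm_le (U : Finset (ZMod r)) (t : ZMod r) : ‖phi U t‖ ≤ #U := by
  unfold phi
  refine (norm_sum_le _ _).trans ?_
  simp only [spec_norm_e, sum_const, nsmul_eq_mul, mul_one, le_refl]

lemma spec_sq (z : ℂ) : ((‖z‖ ^ 2 : ℝ) : ℂ) = z * (starRingEnd ℂ) z := by
  rw [Complex.mul_conj, Complex.normSq_eq_norm_sq]

lemma spec_parseval (U : Finset (ZMod r)) : ∑ t, ‖phi U t‖ ^ 2 = (r : ℝ) * #U := by
  have h : ((∑ t, ‖phi U t‖ ^ 2 : ℝ) : ℂ) = (r : ℂ) * #U := by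
    rw [Complex.ofReal_sum]
    have h1 : ∀ t, ((‖phi U t‖ ^ 2 : ℝ) : ℂ) =
        ∑ u ∈ U, ∑ v ∈ U, (ZMod.stdAddChar (t * (u - v)) : ℂ) := by
      intro t
      rw [spec_sq, phi, map_sum, sum_mul_sum]
      refine sum_congr rfl fun u _ => sum_congr rfl fun v _ => ?_
      rw [spec_e_mul_conj, mul_sub]
    simp only [h1]
    rw [sum_comm]
    have h2 : ∀ u ∈ U, ∑ t : ZMod r, ∑ v ∈ U, (ZMod.stdAddChar (t * (u - v)) : ℂ) = r := by
      intro u hu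
      rw [sum_comm]
      have h3 : ∀ v ∈ U, ∑ t : ZMod r, (ZMod.stdAddChar (t * (u - v)) : ℂ) =
          if u = v then (r : ℂ) else 0 := by
        intro v _
        rw [AddChar.sum_mulShift _ (ZMod.isPrimitive_stdAddChar r), ZMod.card]
        simp only [sub_eq_zero]
        split_ifs <;> simp
      rw [sum_congr rfl h3, sum_ite_eq, if_pos hu]
    rw [sum_congr rfl h2, sum_const, nsmul_eq_mul, mul_comm]
  exact_mod_cast h

lemma spec_inv {U : Finset (ZMod r)} (hU : Grp U) (t : ZMod r) {u : ZMod r} (hu : u ∈ U) :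
    phi U (u * t) = phi U t := by
  unfold phi
  have h0 := hU.ne u hu
  refine sum_nbij' (fun v => u * v) (fun v => u⁻¹ * v) (fun v hv => hU.mul _ hu _ hv)
    (fun v hv => hU.mul _ (hU.inv _ hu) _ hv) (fun v _ => ?_) (fun v _ => ?_) fun v _ => ?_
  · rw [← mul_assoc, inv_mul_cancel₀ h0, one_mul]
  · rw [← mul_assoc, mul_inv_cancel₀ h0, one_mul]
  · congr 1; ring

lemma spec_cs (U A : Finset (ZMod r)) :
    (∑ t ∈ A, ‖phi U t‖) ^ 2 ≤ #U * ∑ p ∈ A ×ˢ A, ‖phi U (p.1 - p.2)‖ := by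
  choose c hc1 hc2 using fun t => Complex.exists_norm_eq_mul_self (phi U t)
  set F : ZMod r → ℂ := fun u => ∑ t ∈ A, c t * ZMod.stdAddChar (t * u) with hF
  have h1 : ∑ t ∈ A, ‖phi U t‖ ≤ ∑ u ∈ U, ‖F u‖ := by
    have h2 : ((∑ t ∈ A, ‖phi U t‖ : ℝ) : ℂ) = ∑ u ∈ U, F u := by
      rw [Complex.ofReal_sum, sum_comm]
      refine sum_congr rfl fun t _ => ?_
      rw [hc2, phi, mul_sum]
    refine le_trans ?_ (norm_sum_le U F)
    rw [← h2, Complex.norm_real]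
    exact le_abs_self _
  have h2 : ∑ u ∈ U, ‖F u‖ ^ 2 ≤ ∑ p ∈ A ×ˢ A, ‖phi U (p.1 - p.2)‖ := by
    have h3 : ((∑ u ∈ U, ‖F u‖ ^ 2 : ℝ) : ℂ) =
        ∑ p ∈ A ×ˢ A, c p.1 * (starRingEnd ℂ) (c p.2) * phi U (p.1 - p.2) := by
      rw [Complex.ofReal_sum]
      have h4 : ∀ u ∈ U, ((‖F u‖ ^ 2 : ℝ) : ℂ) = ∑ p ∈ A ×ˢ A,
          c p.1 * (starRingEnd ℂ) (c p.2) * ZMod.stdAddChar ((p.1 - p.2) * u) := by
        intro u _
        rw [spec_sq, hF, map_sum, sum_mul_sum, sum_product]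
        refine sum_congr rfl fun t _ => sum_congr rfl fun s _ => ?_
        rw [map_mul (starRingEnd ℂ), sub_mul, ← spec_e_mul_conj]; ring
      rw [sum_congr rfl h4, sum_comm]
      refine sum_congr rfl fun p _ => ?_
      rw [phi, mul_sum]
    have h5 : ∑ u ∈ U, ‖F u‖ ^ 2 ≤ ‖((∑ u ∈ U, ‖F u‖ ^ 2 : ℝ) : ℂ)‖ := by
      rw [Complex.norm_real]; exact le_abs_self _
    rw [h3] at h5
    refine h5.trans ((norm_sum_le _ _).trans (sum_le_sum fun p _ => ?_))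
    rw [norm_mul, norm_mul, Complex.norm_conj, hc1, hc1, one_mul, one_mul]
  have h3 : (∑ u ∈ U, ‖F u‖) ^ 2 ≤ #U * ∑ u ∈ U, ‖F u‖ ^ 2 := sq_sum_le_card_mul_sum_sq
  have h4 : 0 ≤ ∑ t ∈ A, ‖phi U t‖ := sum_nonneg fun _ _ => norm_nonneg _
  calc _ ≤ (∑ u ∈ U, ‖F u‖) ^ 2 := by gcongr
    _ ≤ _ := h3
    _ ≤ _ := by gcongr

lemma spec_mem {U : Finset (ZMod r)} {α : ℝ} {t : ZMod r} :
    t ∈ spec U α ↔ α * #U ≤ ‖phi U t‖ := by
  simp [spec]

theorem spec_facts : StmtSpec := by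
  intro r _ U hU
  have hn : (0 : ℝ) < #U := by exact_mod_cast card_pos.2 ⟨1, hU.one⟩
  refine ⟨fun α hα => ?_, fun t u hu => spec_inv hU t hu, fun α hα => ?_⟩
  · have h1 : (#(spec U α) : ℝ) * (α * #U) ^ 2 ≤ r * #U := by
      rw [← spec_parseval, ← nsmul_eq_mul]
      refine (card_nsmul_le_sum (spec U α) (fun t => ‖phi U t‖ ^ 2) _ fun t ht => ?_).trans
        (sum_le_sum_of_subset_of_nonneg (subset_univ _) fun _ _ _ => by positivity)
      have := spec_mem.1 ht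
      gcongr
    refine le_of_mul_le_mul_right ?_ hn
    calc _ = (#(spec U α) : ℝ) * (α * #U) ^ 2 := by ring
      _ ≤ _ := h1
  · set A := spec U α with hA
    set G := (A ×ˢ A).filter fun p => p.1 - p.2 ∈ spec U (α ^ 2 / 2) with hG
    have h1 : (#A : ℝ) * (α * #U) ≤ ∑ t ∈ A, ‖phi U t‖ := by
      rw [← nsmul_eq_mul]
      exact card_nsmul_le_sum A (fun t => ‖phi U t‖) _ fun t ht => spec_mem.1 ht
    have h2 : ∑ p ∈ A ×ˢ A, ‖phi U (p.1 - p.2)‖ ≤ #G * #U + #A ^ 2 * (α ^ 2 / 2 * #U) := by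
      have h3 : ∀ p ∈ A ×ˢ A, ‖phi U (p.1 - p.2)‖ ≤
          (if p.1 - p.2 ∈ spec U (α ^ 2 / 2) then (#U : ℝ) else 0) + α ^ 2 / 2 * #U := by
        intro p _
        split_ifs with h
        · have := spec_norm_le U (p.1 - p.2)
          have h4 : 0 ≤ α ^ 2 / 2 * (#U : ℝ) := by positivity
          linarith
        · have := not_le.1 (mt spec_mem.2 h)
          linarith
      refine (sum_le_sum h3).trans (le_of_eq ?_)
      rw [sum_add_distrib, ← sum_filter, sum_const, sum_const, card_product, nsmul_eq_mul,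
        nsmul_eq_mul]
      push_cast; ring
    have h3 : ((#A : ℝ) * (α * #U)) ^ 2 ≤ #U * (#G * #U + #A ^ 2 * (α ^ 2 / 2 * #U)) :=
      calc _ ≤ (∑ t ∈ A, ‖phi U t‖) ^ 2 := by gcongr
        _ ≤ _ := spec_cs U A
        _ ≤ _ := by gcongr
    refine le_of_mul_le_mul_right ?_ (pow_pos hn 2)
    nlinarith

end Pool.Agent.Work.MP_11a08a_al.Cp
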