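import Pool.Agent.Work.MP_11a08a_al.Cp.Alg
import Pool.Agent.Work.MP_11a08a_al.Cp.BGK
import Pool.Agent.Work.MP_11a08a_al.Cp.BGK0
import Pool.Agent.Work.MP_11a08a_al.Cp.BSG
import Pool.Agent.Work.MP_11a08a_al.Cp.Cnt1
import Pool.Agent.Work.MP_11a08a_al.Cp.Cnt2
import Pool.Agent.Work.MP_11a08a_al.Cp.Inv
import Pool.Agent.Work.MP_11a08a_al.Cp.Mono
import Pool.Agent.Work.MP_11a08a_al.Cp.Most
import Pool.Agent.Work.MP_11a08a_al.Cp.NT
import Pool.Agent.Work.MP_11a08a_al.Cp.Rep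
import Pool.Agent.Work.MP_11a08a_al.Cp.SP
import Pool.Agent.Work.MP_11a08a_al.Cp.SP1
import Pool.Agent.Work.MP_11a08a_al.Cp.SP3
import Pool.Agent.Work.MP_11a08a_al.Cp.SR
import Pool.Agent.Work.MP_11a08a_al.Cp.Spec

/-!
Assembly of the exponential sum bound and of the number theoretic theorem.
-/

set_option autoImplicit false

namespace Pool.Agent.Work.MP_11a08a_al.Cp

theorem bgk_all : StmtBGK := bgk (bgk0 bsg (sp sp1 (sp2 sp1) sp3) spec_facts inv_facts)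

theorem nt_all : StmtNT := nt bgk_all cnt2 cnt1 sr most alg

end Pool.Agent.Work.MP_11a08a_al.Cp
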