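import Pool.Agent.Work.MP_11a08a_al.Cp.Ultra

/-!
The base and the step of the rank recursion in the ultraproduct.
-/

set_option autoImplicit false

open Finset Filter

namespace Pool.Agent.Work.MP_11a08a_al.Cp

/-- The data of a sequence of counterexamples. -/
structure Dat (𝒰 : Ultrafilter ℕ) (r : ℕ → ℕ) [∀ n, Fact (r n).Prime] (K : ℕ → Type)
    [∀ n, Field (K n)] (γ : ∀ n, K n) (U : ∀ n, Finset (ZMod (r n))) (k : ℕ) (L : Type) [Field L]
    (π : (∀ n, K n) →+* L) : Prop where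
  le : (𝒰 : Filter ℕ) ≤ atTop
  hr : Tendsto r 𝒰 atTop
  prim : ∀ n, IsPrimitiveRoot (γ n) (r n)
  grp : ∀ n, Grp (U n)
  surj : Function.Surjective π
  ker : ∀ x, π x = 0 ↔ ∀ᶠ n in (𝒰 : Filter ℕ), x n = 0
  hk : 1 ≤ k
  ne : ∀ n, (sol (U n) k).Nonempty
  c2 : ∀ n, ∀ Z : Finset (ZMod (r n)),
    (#((sol (U n) k).filter fun w => half w ∈ Z) : ℝ) * r n ≤ 4 * #Z * #(sol (U n) k)
  c1 : ∀ ε : ℝ, 0 < ε → ∀ᶠ n in (𝒰 : Filter ℕ), ∀ (c : Fin k ⊕ Fin k → ZMod (r n)) i₀,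
    c i₀ = 0 → c ≠ 0 →
      (#((sol (U n) k).filter fun w => ∑ i, c i * w i = 0) : ℝ) ≤ ε * #(sol (U n) k)

/-- The exponential map. -/
noncomputable def ex {r : ℕ → ℕ} {K : ℕ → Type} [∀ n, Field (K n)] (γ : ∀ n, K n) {L : Type}
    [Field L] (π : (∀ n, K n) →+* L) (x : ∀ n, ZMod (r n)) : L := π fun n => γ n ^ (x n).val

variable {𝒰 : Ultrafilter ℕ} {r : ℕ → ℕ} [∀ n, Fact (r n).Prime] {K : ℕ → Type}
  [∀ n, Field (K n)] {γ : ∀ n, K n} {U : ∀ n, Finset (ZMod (r n))} {k : ℕ} {L : Type} [Field L]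
  {π : (∀ n, K n) →+* L}

theorem Dat.congr (H : Dat 𝒰 r K γ U k L π) {x y : ∀ n, K n}
    (h : ∀ᶠ n in (𝒰 : Filter ℕ), x n = y n) : π x = π y := by
  rw [← sub_eq_zero, ← map_sub, H.ker]
  filter_upwards [h] with n hn
  exact sub_eq_zero.2 hn

theorem Dat.ex_ne (H : Dat 𝒰 r K γ U k L π) (x : ∀ n, ZMod (r n)) : ex γ π x ≠ 0 := by
  intro h
  obtain ⟨n, hn⟩ := ((H.ker _).1 h).exists
  exact pow_ne_zero _ ((H.prim n).ne_zero (Fact.out : (r n).Prime).ne_zero) hn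

theorem Dat.ex_sum (H : Dat 𝒰 r K γ U k L π) {ι : Type} (T : Finset ι)
    (x : ι → ∀ n, ZMod (r n)) : ex γ π (fun n => ∑ i ∈ T, x i n) = ∏ i ∈ T, ex γ π (x i) := by
  unfold ex
  rw [← map_prod]
  congr 1
  funext n
  rw [Finset.prod_apply, ult_pow_sum (H.prim n)]

theorem Dat.ex_mono (H : Dat 𝒰 r K γ U k L π) {ι : Type} [Fintype ι] (m : ι → ℕ)
    (x : ι → ∀ n, ZMod (r n)) :
    ∏ i, ex γ π (x i) ^ m i = ex γ π fun n => ∑ i, (m i : ZMod (r n)) * x i n := by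
  rw [H.ex_sum]
  refine prod_congr rfl fun i _ => ?_
  unfold ex
  rw [← map_pow]
  congr 1
  funext n
  rw [Pi.pow_apply, ult_pow_nat (H.prim n)]

theorem Dat.ind (H : Dat 𝒰 r K γ U k L π) {I : Type} [Fintype I] {v : I → ∀ n, ZMod (r n)}
    (hv : Ind 𝒰 v) (i₀ : Fin k ⊕ Fin k) (l : {i // i ≠ i₀} × I → ℤ) (ε : ℝ) (hε : 0 < ε) :
    Most 𝒰 (fun n => sol (U n) k) ε fun w => l ≠ 0 →
      ∀ᶠ n in (𝒰 : Filter ℕ), ∑ p, (l p : ZMod (r n)) * (v p.2 n * w n p.1.1) ≠ 0 := by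
  classical
  by_cases hl : l = 0
  · exact ⟨fun _ => ∅, Eventually.of_forall fun n => by simp; positivity,
      fun _ _ _ h => absurd hl h⟩
  obtain ⟨p, hp⟩ := Function.ne_iff.1 hl
  let c : ∀ n, Fin k ⊕ Fin k → ZMod (r n) := fun n i =>
    if h : i ≠ i₀ then ∑ x, (l (⟨i, h⟩, x) : ZMod (r n)) * v x n else 0
  refine ⟨fun n => (sol (U n) k).filter fun w => ∑ i, c n i * w i = 0, ?_, fun w hw hb _ => ?_⟩
  · filter_upwards [H.c1 ε hε, hv (fun x => l (p.1, x)) (Function.ne_iff.2 ⟨p.2, hp⟩)] with n h1 h2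
    refine h1 (c n) i₀ (by simp [c]) (Function.ne_iff.2 ⟨p.1.1, ?_⟩)
    simp only [c, dif_pos p.1.2]
    exact h2
  · filter_upwards [hb] with n h1 h2
    refine h1 (mem_filter.2 ⟨hw n, ?_⟩)
    rw [← h2, Fintype.sum_prod_type, Fintype.sum_eq_add_sum_subtype_ne _ i₀]
    simp only [c, ne_eq, not_true_eq_false, dif_neg, not_false_eq_true, zero_mul, zero_add]
    refine sum_congr rfl fun i _ => ?_
    rw [dif_pos i.2, sum_mul]
    exact sum_congr rfl fun x _ => by rw [mul_assoc]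

theorem Dat.gen (H : Dat 𝒰 r K γ U k L π) (hS : StmtSR) (K₀ : Subfield L) {I : Type} [Fintype I]
    {v : I → ∀ n, ZMod (r n)} (hv : Ind 𝒰 v) (Q : MvPolynomial I K₀) (m : ℕ) (ε : ℝ)
    (hε : 0 < ε) :
    Most 𝒰 (fun n => sol (U n) k) ε fun w => Most 𝒰 U (1 / (m + 1)) fun u =>
      MvPolynomial.aeval (fun x => ex γ π fun n => v x n * (half (w n) * u n)) Q = 0 → Q = 0 := by
  classical
  by_cases hQ : Q = 0
  · exact ⟨fun _ => ∅, Eventually.of_forall fun n => by simp; positivity, fun _ _ _ =>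
      ⟨fun _ => ∅, Eventually.of_forall fun n => by simp; positivity, fun _ _ _ _ => hQ⟩⟩
  have hm : (0 : ℝ) < m + 1 := by positivity
  choose ρ hρ using H.surj
  let e : ∀ n, (I →₀ ℕ) → ZMod (r n) := fun n d => ∑ x, (d x : ZMod (r n)) * v x n
  let c : ∀ n, (I →₀ ℕ) → K n := fun n d => ρ ((Q.coeff d : K₀) : L) n
  let Z : ∀ n, Finset (ZMod (r n)) := fun n =>
    univ.filter fun z => ∑ d ∈ Q.support, c n d * γ n ^ (e n d * z).val = 0
  obtain ⟨r₀, h₀⟩ := hS #Q.support (ε / (4 * (m + 1))) (by positivity)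
  have hinj : ∀ᶠ n in (𝒰 : Filter ℕ), ∀ d ∈ Q.support, ∀ d' ∈ Q.support,
      e n d = e n d' → d = d' := by
    rw [eventually_all_finset]
    intro d _
    rw [eventually_all_finset]
    intro d' _
    by_cases hd : d = d'
    · exact Eventually.of_forall fun _ _ => hd
    have h1 : (fun x => (d x : ℤ) - d' x) ≠ 0 := fun h => hd (Finsupp.ext fun x => by
      have := congrFun h x
      simp only [Pi.zero_apply] at this
      omega)
    filter_upwards [hv _ h1] with n hn h2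
    refine absurd ?_ hn
    simp only [Int.cast_sub, Int.cast_natCast, sub_mul, sum_sub_distrib]
    exact sub_eq_zero.2 h2
  obtain ⟨d₀, hd₀⟩ := MvPolynomial.support_nonempty.2 hQ
  have hc : ∀ᶠ n in (𝒰 : Filter ℕ), c n d₀ ≠ 0 := by
    refine Ultrafilter.eventually_not.2 fun h => MvPolynomial.mem_support_iff.1 hd₀ ?_
    have := (H.ker (ρ ((Q.coeff d₀ : K₀) : L))).2 h
    rw [hρ] at this
    exact_mod_cast this
  refine ⟨fun n => (sol (U n) k).filter fun w =>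
    (#(U n) : ℝ) < (m + 1) * #((U n).filter fun u => half w * u ∈ Z n), ?_, fun w hw hb => ?_⟩
  · filter_upwards [hinj, hc, H.hr.eventually_ge_atTop r₀] with n h1 h2 h3
    have h4 := h₀ (r n) h3 (K n) (γ n) (H.prim n) _ Q.support (e n) (c n) le_rfl
      (fun d hd d' hd' => h1 d hd d' hd') ⟨d₀, hd₀, h2⟩
    refine (ult_markov (H.grp n) (H.c2 n) (Z n) hm (by convert h4)).trans_eq ?_
    field_simp
  · refine ⟨fun n => (U n).filter fun u => half (w n) * u ∈ Z n, ?_, fun u hu hz h0 => ?_⟩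
    · filter_upwards [hb] with n h1
      rw [mem_filter, not_and, not_lt] at h1
      rw [one_div, inv_mul_eq_div, le_div_iff₀ hm, mul_comm]
      exact h1 (hw n)
    · exfalso
      have h1 : π (fun n => ∑ d ∈ Q.support, c n d * γ n ^ (e n d * (half (w n) * u n)).val) = 0 := by
        rw [← h0, MvPolynomial.aeval_def, MvPolynomial.eval₂_eq']
        have : (fun n => ∑ d ∈ Q.support, c n d * γ n ^ (e n d * (half (w n) * u n)).val) =
            ∑ d ∈ Q.support, ρ ((Q.coeff d : K₀) : L) *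
              fun n => γ n ^ (e n d * (half (w n) * u n)).val := by
          funext n
          simp [Finset.sum_apply, c]
        rw [this, map_sum]
        refine sum_congr rfl fun d _ => ?_
        rw [map_mul, hρ, H.ex_mono]
        congr 1
        unfold ex
        congr 1
        funext n
        simp only [e, sum_mul, mul_assoc]
      obtain ⟨n, h2, h3⟩ := (((H.ker _).1 h1).and hz).exists
      exact h3 (mem_filter.2 ⟨hu n, mem_filter.2 ⟨mem_univ _, h2⟩⟩)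

/-- The statement of the recursion. -/
def Claim (𝒰 : Ultrafilter ℕ) {r : ℕ → ℕ} {K : ℕ → Type} [∀ n, Field (K n)] (γ : ∀ n, K n)
    (U : ∀ n, Finset (ZMod (r n))) {L : Type} [Field L] (π : (∀ n, K n) →+* L) (K₀ : Subfield L)
    (g m : ℕ) (c : ℝ) : Prop :=
  ∃ (I : Type) (_ : Fintype I) (v : I → ∀ n, ZMod (r n)), Ind 𝒰 v ∧ Fintype.card I ≤ g ∧
    Most 𝒰 U c fun u =>
      trk K₀ (Set.range fun x => ex γ π fun n => v x n * u n) + m ≤ Fintype.card I

theorem Dat.step (H : Dat 𝒰 r K γ U k L π) (hS : StmtSR) (hM : StmtMost) (hA : StmtAlg)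
    (K₀ : Subfield L) [Countable K₀] {g m : ℕ} {c : ℝ} (hc : 0 < c)
    (h : Claim 𝒰 γ U π K₀ g m c) :
    Claim 𝒰 γ U π K₀ ((2 * k - 1) * g) (2 * k * m) ((2 * k + 1) * c) := by
  classical
  obtain ⟨I, _, v, hv, hg, hm⟩ := h
  obtain ⟨s1, s2, -, s4, s5, -⟩ := hM 𝒰 _ (fun n => sol (U n) k) H.le
  obtain ⟨u1, u2, u3, u4, -, u6⟩ := hM 𝒰 _ U H.le
  obtain ⟨a1, -, a3⟩ := hA K₀ L
  let i₀ : Fin k ⊕ Fin k := Sum.inl ⟨0, H.hk⟩
  have : Countable (MvPolynomial I K₀) := by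
    rw [← Cardinal.mk_le_aleph0_iff]
    refine MvPolynomial.cardinalMk_le_max.trans ?_
    simp only [max_le_iff, Cardinal.mk_le_aleph0_iff, le_refl, and_true]
    exact ⟨inferInstance, inferInstance⟩
  have m1 := s4 _ _ (fun l ε hε => H.ind hv i₀ l ε hε) (1 / 4) (by norm_num)
  have m2 := s4 (MvPolynomial I K₀ × ℕ) _ (fun p ε hε => H.gen hS K₀ hv p.1 p.2 ε hε) (1 / 4)
    (by norm_num)
  obtain ⟨w, hw, w1, w2⟩ := s5 _ _ H.ne (by norm_num) (s2 _ _ _ _ m1 m2)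
  have hwU : ∀ n i, w n i ∈ U n := fun n i =>
    Fintype.mem_piFinset.1 (mem_filter.1 (hw n)).1 i
  have hcard : Fintype.card ({i // i ≠ i₀} × I) = (2 * k - 1) * Fintype.card I := by
    rw [Fintype.card_prod, Fintype.card_subtype_compl, Fintype.card_sum, Fintype.card_fin,
      Fintype.card_unique, two_mul]
  refine ⟨{i // i ≠ i₀} × I, inferInstance, fun p n => v p.2 n * w n p.1.1, w1,
    hcard.trans_le (Nat.mul_le_mul_left _ hg), ?_⟩
  have m3 := u4 (MvPolynomial I K₀) (fun Q u => MvPolynomial.aeval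
      (fun x => ex γ π fun n => v x n * (half (w n) * u n)) Q = 0 → Q = 0) (fun Q ε hε => by
    obtain ⟨j, hj⟩ := exists_nat_one_div_lt hε
    exact u1 _ _ _ _ hj.le (fun _ _ h => h) (w2 (Q, j))) c hc
  have m4 := u3 (Fin k ⊕ Fin k) c _ fun i => u6 c _ (fun n x => w n i * x)
    (fun n => mul_right_injective₀ ((H.grp n).ne _ (hwU n i)))
    (fun n x hx => (H.grp n).mul _ (hwU n i) _ hx) hm
  refine u1 _ _ _ _ (le_of_eq ?_) (fun u _ hu => ?_) (u2 _ _ _ _ m4 m3)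
  · rw [Fintype.card_sum, Fintype.card_fin]
    push_cast
    ring
  · have h1 := a3 k m I (fun i x => ex γ π fun n => v x n * (w n i * u n))
      (fun x => ex γ π fun n => v x n * (half (w n) * u n)) H.hk
      (algebraicIndependent_iff.2 hu.2) (fun x => ?_) (fun x => ?_) hu.1
    · rw [hcard]
      refine le_trans (add_le_add_left (a1 _ _ ?_) _) h1
      rintro _ ⟨p, rfl⟩
      refine Set.mem_iUnion.2 ⟨p.1.1, p.2, ?_⟩
      simp only [mul_assoc]
    · rw [← H.ex_sum]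
      congr 1
      funext n
      rw [half, sum_mul, mul_sum]
    · rw [← H.ex_sum]
      congr 1
      funext n
      rw [(mem_filter.1 (hw n)).2, sum_mul, mul_sum]

theorem Dat.base (H : Dat 𝒰 r K γ U k L π) (hA : StmtAlg) {q : ℕ} (a : Fin q → ∀ n, ZMod (r n))
    (β : Fin q → ∀ n, K n) (z : ∀ n, ZMod (r n))
    (hz : ∀ n, ∑ l, β l n * γ n ^ (a l n * z n).val ≠ 0) (K₀ : Subfield L) (hβ : ∀ l, π (β l) ∈ K₀)
    {c : ℝ} (Bad : ∀ n, Finset (ZMod (r n))) (hB : ∀ n, (#(Bad n) : ℝ) ≤ c * #(U n))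
    (hB' : ∀ n, ∀ u ∈ U n, u ∉ Bad n → ∑ l, β l n * γ n ^ (a l n * u).val = 0) :
    Claim 𝒰 γ U π K₀ q 1 c := by
  classical
  obtain ⟨g, b, d, hg, hb, hd⟩ := ult_basis 𝒰 r H.hr a
  obtain ⟨s, hs⟩ : ∃ s : ℕ, ∀ l j, 0 ≤ d l j + s := by
    refine ⟨∑ l, ∑ j, (d l j).natAbs, fun l j => ?_⟩
    have h1 : (d l j).natAbs ≤ ∑ j, (d l j).natAbs :=
      single_le_sum (f := fun j => (d l j).natAbs) (fun _ _ => Nat.zero_le _) (mem_univ j)
    have h2 : ∑ j, (d l j).natAbs ≤ ∑ l, ∑ j, (d l j).natAbs :=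
      single_le_sum (f := fun l => ∑ j, (d l j).natAbs) (fun _ _ => Nat.zero_le _) (mem_univ l)
    omega
  let Q : MvPolynomial (Fin g) K₀ :=
    ∑ l, MvPolynomial.C ⟨π (β l), hβ l⟩ * ∏ j, MvPolynomial.X j ^ (d l j + s).toNat
  have key : ∀ u : ∀ n, ZMod (r n), MvPolynomial.aeval (fun j => ex γ π fun n => b j n * u n) Q =
      π (fun n => ∑ l, β l n * γ n ^ (a l n * u n).val) *
        ex γ π fun n => ∑ j, (s : ZMod (r n)) * (b j n * u n) := by
    intro u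
    have e : (fun n => ∑ l, β l n * γ n ^ (a l n * u n).val) =
        ∑ l, β l * fun n => γ n ^ (a l n * u n).val := by
      funext n
      simp [Finset.sum_apply]
    rw [e, map_sum π, sum_mul, map_sum]
    refine sum_congr rfl fun l _ => ?_
    rw [map_mul, map_mul, MvPolynomial.aeval_C, map_prod, mul_assoc]
    congr 1
    simp only [map_pow, MvPolynomial.aeval_X]
    rw [H.ex_mono]
    unfold ex
    rw [← map_mul]
    refine H.congr ?_
    filter_upwards [hd l] with n hn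
    rw [Pi.mul_apply, ← ult_pow_add (H.prim n), hn, sum_mul, ← sum_add_distrib]
    congr 2
    refine sum_congr rfl fun j _ => ?_
    rw [← Int.cast_natCast, Int.toNat_of_nonneg (hs l j)]
    push_cast
    ring
  have hQ : Q ≠ 0 := by
    intro h
    have h1 := key z
    rw [h, map_zero] at h1
    obtain ⟨n, hn⟩ := ((H.ker _).1 ((mul_eq_zero.1 h1.symm).resolve_right (H.ex_ne _))).exists
    exact hz n hn
  refine ⟨Fin g, inferInstance, b, hb, by simpa using hg, Bad, Eventually.of_forall hB,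
    fun u hu hb' => ?_⟩
  refine (hA K₀ L).2.1 (Fin g) _ fun hi => hQ (algebraicIndependent_iff.1 hi Q ?_)
  rw [key, (H.ker _).2, zero_mul]
  filter_upwards [hb'] with n hn
  exact hB' n _ (hu n) hn

end Pool.Agent.Work.MP_11a08a_al.Cp
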